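import Pool.Agent.Work.MP_e10cd8_co.Book

/-!
The plain neighbourhood induction in a two-target system.
-/

namespace Pool.Agent.Work.MP_e10cd8_co

open Finset
open scoped Classical

variable {V : Type} {ρ σ : ℕ}

lemma Sys.A_step (S : Sys V ρ σ) {j : Fin ρ} {k : ℕ} {X : Finset V} {v : V} (hv : v ∈ X)
    (h : S.A k (S.pt (Sum.inl j) v X)) : S.A (k + 1) X :=
  S.P_A Subset.rfl (S.P_step (i := j) (j := j) hv (S.P_right h))

lemma Sys.es (S : Sys V ρ σ) (hρ : 0 < ρ) (hσ : 0 < σ) {α β : ℝ} (hα : 1 ≤ α) (hβ : 1 ≤ β)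
    (h : ρ / α + σ / β ≤ 1) : ∀ (N k t : ℕ), k + t = N → ∀ X : Finset V,
      2 * (α ^ k * β ^ t) ≤ X.card + 1 → S.A (k + 1) X ∨ S.B (t + 1) X := by
  intro N
  induction N using Nat.strong_induction_on with
  | _ N ih =>
  intro k t hN X hX
  have h1 : 1 ≤ α ^ k * β ^ t := one_le_mul_of_one_le_of_one_le (one_le_pow₀ hα) (one_le_pow₀ hβ)
  obtain ⟨v, hv⟩ : X.Nonempty := by
    rw [← card_pos]
    have : (0 : ℝ) < X.card := by linarith
    exact_mod_cast this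
  rcases Nat.eq_zero_or_pos k with rfl | hk0
  · exact Or.inl (S.A_step (j := ⟨0, hρ⟩) hv (S.A_zero _))
  rcases Nat.eq_zero_or_pos t with rfl | ht0
  · exact Or.inr (S.B_step (j := ⟨0, hσ⟩) hv (S.B_zero _))
  obtain ⟨k, rfl⟩ : ∃ k', k = k' + 1 := ⟨k - 1, by omega⟩
  obtain ⟨t, rfl⟩ : ∃ t', t = t' + 1 := ⟨t - 1, by omega⟩
  by_contra hcon
  push Not at hcon
  set E := 2 * (α ^ (k + 1) * β ^ (t + 1)) with hE
  have a1 : ∀ j, ((S.pt (Sum.inl j) v X).card : ℝ) + 1 < E / α := by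
    intro j
    by_contra x
    push Not at x
    have e : E / α = 2 * (α ^ k * β ^ (t + 1)) := by rw [hE]; field_simp; ring
    rcases ih _ (by omega) k (t + 1) rfl _ (e ▸ x) with y | y
    · exact hcon.1 (S.A_step hv y)
    · exact hcon.2 (S.B_mono (S.pt_subset _ _ _) y)
  have a2 : ∀ j, ((S.pt (Sum.inr j) v X).card : ℝ) + 1 < E / β := by
    intro j
    by_contra x
    push Not at x
    have e : E / β = 2 * (α ^ (k + 1) * β ^ t) := by rw [hE]; field_simp; ring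
    rcases ih _ (by omega) (k + 1) t rfl _ (e ▸ x) with y | y
    · exact hcon.1 (S.A_mono (S.pt_subset _ _ _) y)
    · exact hcon.2 (S.B_step hv y)
  have b1 : ∑ j : Fin ρ, (((S.pt (Sum.inl j) v X).card : ℝ) + 1) < ∑ _j : Fin ρ, E / α :=
    sum_lt_sum_of_nonempty ⟨⟨0, hρ⟩, mem_univ _⟩ fun j _ => a1 j
  have b2 : ∑ j : Fin σ, (((S.pt (Sum.inr j) v X).card : ℝ) + 1) ≤ ∑ _j : Fin σ, E / β :=
    sum_le_sum fun j _ => (a2 j).le
  simp only [sum_add_distrib, sum_const, card_univ, Fintype.card_fin, nsmul_eq_mul] at b1 b2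
  have c := S.card_split hv
  have d1 : (1 : ℝ) ≤ ρ := by exact_mod_cast hρ
  have d2 : (1 : ℝ) ≤ σ := by exact_mod_cast hσ
  have d3 : (ρ : ℝ) * (E / α) + σ * (E / β) = E * (ρ / α + σ / β) := by ring
  have d4 : E * (ρ / α + σ / β) ≤ E * 1 := mul_le_mul_of_nonneg_left h (by linarith)
  linarith

end Pool.Agent.Work.MP_e10cd8_co
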