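import Pool.Agent.Work.MP_e10cd8_co.Step

/-!
The concrete systems: graphs (cliques against independent sets) and directed graphs
(independent sets against transitive tournaments).
-/

namespace Pool.Agent.Work.MP_e10cd8_co

open Finset
open scoped Classical

variable {V : Type}

/-- `X` holds `k` vertices that are pairwise related by `a`. -/
def Clq (a : V → V → Prop) (k : ℕ) (X : Finset V) : Prop :=
  ∃ S ⊆ X, S.card = k ∧ ∀ u ∈ S, ∀ v ∈ S, u ≠ v → a u v

lemma Clq.zero (a : V → V → Prop) (X : Finset V) : Clq a 0 X :=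
  ⟨∅, empty_subset _, rfl, by simp⟩

lemma Clq.mono {a : V → V → Prop} {k : ℕ} {X Y : Finset V} (h : X ⊆ Y) : Clq a k X → Clq a k Y :=
  fun ⟨S, h1, h2⟩ => ⟨S, h1.trans h, h2⟩

lemma Clq.step {a : V → V → Prop} {k : ℕ} {X Z : Finset V} {v : V} (hv : v ∈ X) (hZ : Z ⊆ X)
    (h : ∀ u ∈ Z, u ≠ v ∧ a u v ∧ a v u) : Clq a k Z → Clq a (k + 1) X := by
  rintro ⟨S, h1, h2, h3⟩
  have hvS : v ∉ S := fun x => (h v (h1 x)).1 rfl
  refine ⟨insert v S, insert_subset hv (h1.trans hZ), by rw [card_insert_of_notMem hvS, h2], ?_⟩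
  intro x hx y hy hxy
  rcases mem_insert.1 hx with e1 | e1 <;> rcases mem_insert.1 hy with e2 | e2
  · exact absurd (e1.trans e2.symm) hxy
  · rw [e1]; exact (h y (h1 e2)).2.2
  · rw [e2]; exact (h x (h1 e1)).2.1
  · exact h3 x e1 y e2 hxy

/-- `X` holds a list of `k` vertices with an arc from each to every later one. -/
def Trn (r : V → V → Prop) (k : ℕ) (X : Finset V) : Prop :=
  ∃ l : List V, l.length = k ∧ l.Pairwise r ∧ ∀ x ∈ l, x ∈ X

lemma Trn.zero (r : V → V → Prop) (X : Finset V) : Trn r 0 X := ⟨[], rfl, by simp, by simp⟩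

lemma Trn.mono {r : V → V → Prop} {k : ℕ} {X Y : Finset V} (h : X ⊆ Y) : Trn r k X → Trn r k Y :=
  fun ⟨l, h1, h2, h3⟩ => ⟨l, h1, h2, fun x hx => h (h3 x hx)⟩

/-- Two symmetric complementary relations. -/
noncomputable def graphSys (a b : V → V → Prop) (ha : ∀ u v, a u v → a v u)
    (hb : ∀ u v, b u v → b v u) (hab : ∀ u v, u ≠ v → ¬ a u v → b u v) : Sys V 1 1 where
  c v u := if a v u then Sum.inl 0 else Sum.inr 0
  A := Clq a
  B := Clq b
  P _ k X Y := Clq a k (X ∪ Y)
  A_zero := Clq.zero a
  B_zero := Clq.zero b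
  A_mono := Clq.mono
  B_mono := Clq.mono
  P_right := Clq.mono subset_union_right
  P_A h := Clq.mono (union_subset h Subset.rfl)
  P_mono h h' := Clq.mono (union_subset_union h h')
  P_step := by
    intro i j k X Y v hv
    refine Clq.step (mem_union_left _ hv)
      (union_subset_union (filter_subset _ _) (filter_subset _ _)) ?_
    intro u hu
    have : u ≠ v ∧ a v u := by
      rcases mem_union.1 hu with h | h <;>
      · obtain ⟨_, h1, h2⟩ := mem_filter.1 h
        refine ⟨h1, ?_⟩
        by_contra x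
        simp [x] at h2
    exact ⟨this.1, ha _ _ this.2, this.2⟩
  B_step := by
    intro j t X v hv
    refine Clq.step hv (filter_subset _ _) ?_
    intro u hu
    obtain ⟨_, h1, h2⟩ := mem_filter.1 hu
    have : ¬ a v u := fun x => by simp [x] at h2
    have h3 := hab v u h1.symm this
    exact ⟨h1, hb _ _ h3, h3⟩

/-- Independent sets as spine, transitive tournaments on the side. -/
noncomputable def indSys (r : V → V → Prop) : Sys V 1 2 where
  c v u := if r v u then Sum.inr 0 else if r u v then Sum.inr 1 else Sum.inl 0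
  A := Clq fun u v => ¬ r u v
  B := Trn r
  P _ k X Y := Clq (fun u v => ¬ r u v) k (X ∪ Y)
  A_zero := Clq.zero _
  B_zero := Trn.zero r
  A_mono := Clq.mono
  B_mono := Trn.mono
  P_right := Clq.mono subset_union_right
  P_A h := Clq.mono (union_subset h Subset.rfl)
  P_mono h h' := Clq.mono (union_subset_union h h')
  P_step := by
    intro i j k X Y v hv
    refine Clq.step (mem_union_left _ hv)
      (union_subset_union (filter_subset _ _) (filter_subset _ _)) ?_
    intro u hu
    rcases mem_union.1 hu with h | h <;>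
    · obtain ⟨_, h1, h2⟩ := mem_filter.1 h
      by_cases x : r v u
      · simp [x] at h2
      · by_cases y : r u v
        · simp [x, y] at h2
        · exact ⟨h1, y, x⟩
  B_step := by
    rintro j t X v hv ⟨l, h1, h2, h3⟩
    have hX : ∀ x ∈ l, x ∈ X := fun x hx => (mem_filter.1 (h3 x hx)).1
    fin_cases j
    · refine ⟨v :: l, by simp [h1], List.pairwise_cons.2 ⟨fun x hx => ?_, h2⟩, ?_⟩
      · have := (mem_filter.1 (h3 x hx)).2.2
        by_contra y
        by_cases z : r x v <;> simp [y, z] at this
      · intro x hx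
        rcases List.mem_cons.1 hx with rfl | hx
        · exact hv
        · exact hX x hx
    · refine ⟨l ++ [v], by simp [h1], List.pairwise_append.2 ⟨h2, by simp, ?_⟩, ?_⟩
      · intro x hx y hy
        rw [List.mem_singleton.1 hy]
        have := (mem_filter.1 (h3 x hx)).2.2
        by_contra z
        by_cases y : r v x <;> simp [y, z] at this
      · intro x hx
        rcases List.mem_append.1 hx with hx | hx
        · exact hX x hx
        · rw [List.mem_singleton.1 hx]; exact hv

/-- Transitive tournaments as spine, independent sets on the side. -/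
noncomputable def trnSys (r : V → V → Prop) : Sys V 2 1 where
  c v u := if r v u then Sum.inl 0 else if r u v then Sum.inl 1 else Sum.inr 0
  A := Trn r
  B := Clq fun u v => ¬ r u v
  P i k X Y := ∃ l₁ l₂ : List V, l₁.length + l₂.length = k ∧ l₁.Pairwise r ∧ l₂.Pairwise r ∧
    (∀ x ∈ l₁, x ∈ X) ∧ (∀ y ∈ l₂, y ∈ Y) ∧ ∀ x ∈ l₁, ∀ y ∈ l₂, if i = 0 then r x y else r y x
  A_zero := Trn.zero r
  B_zero := Clq.zero _
  A_mono := Trn.mono
  B_mono := Clq.mono
  P_right := fun ⟨l, h1, h2, h3⟩ => ⟨[], l, by simp [h1], by simp, h2, by simp, h3, by simp⟩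
  P_A := by
    rintro i k X Y h ⟨l₁, l₂, h1, h2, h3, h4, h5, h6⟩
    by_cases hi : i = 0
    · simp only [hi, if_true] at h6
      refine ⟨l₁ ++ l₂, by simp [h1], List.pairwise_append.2 ⟨h2, h3, h6⟩, fun x hx => ?_⟩
      rcases List.mem_append.1 hx with hx | hx
      · exact h (h4 x hx)
      · exact h5 x hx
    · simp only [hi, if_false] at h6
      refine ⟨l₂ ++ l₁, by simp; omega,
        List.pairwise_append.2 ⟨h3, h2, fun y hy x hx => h6 x hx y hy⟩, fun x hx => ?_⟩
      rcases List.mem_append.1 hx with hx | hx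
      · exact h5 x hx
      · exact h (h4 x hx)
  P_mono := fun h h' ⟨l₁, l₂, h1, h2, h3, h4, h5, h6⟩ =>
    ⟨l₁, l₂, h1, h2, h3, fun x hx => h (h4 x hx), fun x hx => h' (h5 x hx), h6⟩
  P_step := by
    rintro i j k X Y v hv ⟨l₁, l₂, h1, h2, h3, h4, h5, h6⟩
    have hX : ∀ x ∈ l₁, x ∈ X := fun x hx => (mem_filter.1 (h4 x hx)).1
    have hY : ∀ x ∈ l₂, x ∈ Y := fun x hx => (mem_filter.1 (h5 x hx)).1
    have hv2 : ∀ y ∈ l₂, if i = 0 then r v y else r y v := by
      intro y hy
      have := (mem_filter.1 (h5 y hy)).2.2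
      fin_cases i <;> by_cases a : r v y <;> by_cases b : r y v <;> simp [a, b] at this ⊢
    fin_cases j
    · refine ⟨v :: l₁, l₂, by simp; omega, List.pairwise_cons.2 ⟨fun x hx => ?_, h2⟩, h3, ?_, hY, ?_⟩
      · have := (mem_filter.1 (h4 x hx)).2.2
        by_contra y
        by_cases z : r x v <;> simp [y, z] at this
      · intro x hx
        rcases List.mem_cons.1 hx with rfl | hx
        · exact hv
        · exact hX x hx
      · intro x hx
        rcases List.mem_cons.1 hx with rfl | hx
        · exact hv2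
        · exact h6 x hx
    · refine ⟨l₁ ++ [v], l₂, by simp; omega, List.pairwise_append.2 ⟨h2, by simp, ?_⟩, h3, ?_,
        hY, ?_⟩
      · intro x hx y hy
        rw [List.mem_singleton.1 hy]
        have := (mem_filter.1 (h4 x hx)).2.2
        by_contra z
        by_cases y : r v x <;> simp [y, z] at this
      · intro x hx
        rcases List.mem_append.1 hx with hx | hx
        · exact hX x hx
        · rw [List.mem_singleton.1 hx]; exact hv
      · intro x hx
        rcases List.mem_append.1 hx with hx | hx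
        · exact h6 x hx
        · rw [List.mem_singleton.1 hx]; exact hv2
  B_step := by
    intro j t X v hv
    refine Clq.step hv (filter_subset _ _) ?_
    intro u hu
    obtain ⟨_, h1, h2⟩ := mem_filter.1 hu
    by_cases x : r v u
    · simp [x] at h2
    · by_cases y : r u v
      · simp [x, y] at h2
      · exact ⟨h1, y, x⟩

end Pool.Agent.Work.MP_e10cd8_co
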