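import Pool.Agent.Work.MP_e10cd8_co.Inst

/-!
Translation of the two targets into plain statements about a loopless digraph.
-/

namespace Pool.Agent.Work.MP_e10cd8_co

lemma final_form {V : Type} (G : Digraph V) (hG : ∀ v, ¬ G.Adj v v) {n m : ℕ} {X : Finset V}
    (h : Clq (fun u v => ¬ G.Adj u v) n X ∨ Trn G.Adj m X) :
    (∃ S : Finset V, S.card = n ∧ ∀ u ∈ S, ∀ v ∈ S, ¬ G.Adj u v) ∨
      ∃ f : Fin m → V, Function.Injective f ∧ ∀ i j, i < j → G.Adj (f i) (f j) := by
  rcases h with ⟨S, _, h1, h2⟩ | ⟨l, rfl, h1, _⟩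
  · refine Or.inl ⟨S, h1, fun u hu v hv => ?_⟩
    by_cases e : u = v
    · rw [e]; exact hG v
    · exact h2 u hu v hv e
  · have h2 : ∀ i j : Fin l.length, i < j → G.Adj (l.get i) (l.get j) :=
      fun i j hij => List.pairwise_iff_get.1 h1 i j hij
    refine Or.inr ⟨l.get, fun i j e => ?_, h2⟩
    rcases lt_trichotomy i j with c | c | c
    · exact absurd (e ▸ h2 i j c) (hG _)
    · exact c
    · exact absurd (e ▸ h2 j i c) (hG _)

end Pool.Agent.Work.MP_e10cd8_co
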