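import Pool.Agent.Work.MP_e10cd8_co.Step

/-!
The book theorem with an exact potential.
-/

namespace Pool.Agent.Work.MP_e10cd8_co

open Finset Filter Topology
open scoped Classical

variable {V : Type} {ρ σ : ℕ}

/-- The potential induction. -/
lemma Sys.book_ind (S : Sys V ρ σ) (i : Fin ρ) {L s a m l₁ l₂ τ T : ℝ} {n : ℕ}
    (hs : 0 < s) (hm : 0 ≤ m) (hn : 1 ≤ n) (hl₁ : 0 < l₁) (hl : l₁ ≤ l₂) (hτ : 0 < τ)
    (hT : 0 < T)
    (hc : n * (l₁ + (l₂ - l₁) * (σ * Real.exp (-m)))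
      + (ρ * Real.exp (s * L - s * a) * (l₁ ^ n)⁻¹ + σ * Real.exp (s * L - m) * (l₂ ^ n)⁻¹)
      ≤ (n + 1) * (1 - τ))
    (k₀ : ℕ) (Y₀ : Finset V) (R : Prop)
    (hfin : ∀ k ≤ k₀, ∀ Y ⊆ Y₀, T * Real.exp (a * k) ≤ Y.card → S.A k Y ∨ R) :
    ∀ (N k t : ℕ), k + t = N → k ≤ k₀ → ∀ X Y : Finset V, Y ⊆ Y₀ →
      τ⁻¹ * T ^ s * Real.exp (s * a * k + m * t)
        ≤ (Y.card : ℝ) ^ s * mom (S.rel i) (Real.exp (-L)) n X Y →
      S.P i k X Y ∨ S.B t X ∨ R := by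
  intro N
  induction N using Nat.strong_induction_on with
  | _ N ih =>
  intro k t hN hk X Y hY hΦ
  rcases Nat.eq_zero_or_pos k with rfl | hk0
  · exact Or.inl (S.P_right (S.A_zero _))
  rcases Nat.eq_zero_or_pos t with rfl | ht0
  · exact Or.inr (Or.inl (S.B_zero _))
  obtain ⟨k, rfl⟩ : ∃ k', k = k' + 1 := ⟨k - 1, by omega⟩
  obtain ⟨t, rfl⟩ : ∃ t', t = t' + 1 := ⟨t - 1, by omega⟩
  set p := Real.exp (-L) with hp
  have hp0 : 0 < p := Real.exp_pos _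
  set M := mom (S.rel i) p n X Y with hM
  have hM0 : 0 ≤ M := mom_nonneg _ _ _ _ _
  have hYs : 0 ≤ (Y.card : ℝ) ^ s := Real.rpow_nonneg (Nat.cast_nonneg _) _
  have hTs : 0 < T ^ s := Real.rpow_pos_of_pos hT _
  by_cases hτM : τ * M ≤ 1
  · have h1 : T ^ s * Real.exp (s * a * (k + 1 : ℕ) + m * (t + 1 : ℕ)) ≤ (Y.card : ℝ) ^ s := by
      have h2 := mul_le_mul_of_nonneg_left hΦ hτ.le
      have h3 : τ * (τ⁻¹ * T ^ s * Real.exp (s * a * (k + 1 : ℕ) + m * (t + 1 : ℕ)))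
          = T ^ s * Real.exp (s * a * (k + 1 : ℕ) + m * (t + 1 : ℕ)) := by field_simp
      rw [h3] at h2
      linarith only [h2, hYs, hτM, mul_nonneg_of_nonpos_of_nonpos (Mathlib.Tactic.Linarith.sub_nonpos_of_le hYs) (Mathlib.Tactic.Linarith.sub_nonpos_of_le hτM)]
    have h2 : (T * Real.exp (a * (k + 1 : ℕ))) ^ s ≤ (Y.card : ℝ) ^ s := by
      refine le_trans ?_ h1
      rw [Real.mul_rpow hT.le (Real.exp_pos _).le, ← Real.exp_mul]
      refine mul_le_mul_of_nonneg_left (Real.exp_le_exp.2 ?_) hTs.le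
      have : 0 ≤ m * ((t + 1 : ℕ) : ℝ) := by positivity
      linarith only [this]
    have h3 := (Real.rpow_le_rpow_iff (by positivity) (Nat.cast_nonneg _) hs).1 h2
    rcases hfin _ hk Y hY h3 with h | h
    · exact Or.inl (S.P_right h)
    · exact Or.inr (Or.inr h)
  push Not at hτM
  obtain ⟨v, hv, hd, hopt⟩ := S.step i hp0.le hn hl₁ hl hτ hc X Y hτM
  set Y' := S.pt (Sum.inl i) v Y with hY'
  have hY'Y : Y' ⊆ Y := S.pt_subset _ _ _
  have hYp : Real.exp (-(s * L)) * (Y.card : ℝ) ^ s ≤ (Y'.card : ℝ) ^ s := by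
    have : (p * Y.card) ^ s ≤ (Y'.card : ℝ) ^ s :=
      Real.rpow_le_rpow (by positivity) hd.le hs.le
    rw [Real.mul_rpow hp0.le (Nat.cast_nonneg _), hp, ← Real.exp_mul] at this
    convert this using 3; ring
  have hgen : ∀ (c M' : ℝ), Real.exp (s * L - c) * M ≤ M' →
      τ⁻¹ * T ^ s * Real.exp (s * a * (k + 1 : ℕ) + m * (t + 1 : ℕ) - c)
        ≤ (Y'.card : ℝ) ^ s * M' := by
    intro c M' h
    have h1 : Real.exp (-(s * L)) * (Y.card : ℝ) ^ s * (Real.exp (s * L - c) * M)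
        ≤ (Y'.card : ℝ) ^ s * M' :=
      mul_le_mul hYp h (by positivity) (Real.rpow_nonneg (Nat.cast_nonneg _) _)
    refine le_trans ?_ h1
    have h2 : Real.exp (-(s * L)) * (Y.card : ℝ) ^ s * (Real.exp (s * L - c) * M)
        = Real.exp (-c) * ((Y.card : ℝ) ^ s * M) := by
      have : Real.exp (-c) = Real.exp (-(s * L)) * Real.exp (s * L - c) := by
        rw [← Real.exp_add]; congr 1; ring
      rw [this]; ring
    rw [h2, sub_eq_add_neg, Real.exp_add]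
    have := mul_le_mul_of_nonneg_left hΦ (Real.exp_pos (-c)).le
    linarith only [this]
  rcases hopt with ⟨j, h⟩ | ⟨j, h⟩ | ⟨j, h⟩
  · have h1 := hgen _ _ h
    have h2 : s * a * ((k + 1 : ℕ) : ℝ) + m * ((t + 1 : ℕ) : ℝ) - s * a
        = s * a * (k : ℝ) + m * ((t + 1 : ℕ) : ℝ) := by push_cast; ring
    rw [h2] at h1
    rcases ih (k + (t + 1)) (by omega) k (t + 1) rfl (by omega) _ _ (hY'Y.trans hY) h1
      with h | h | h
    · exact Or.inl (S.P_step hv h)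
    · exact Or.inr (Or.inl (S.B_mono (S.pt_subset _ _ _) h))
    · exact Or.inr (Or.inr h)
  · have h1 := hgen _ _ h
    have h2 : s * a * ((k + 1 : ℕ) : ℝ) + m * ((t + 1 : ℕ) : ℝ) - m
        = s * a * ((k + 1 : ℕ) : ℝ) + m * (t : ℝ) := by push_cast; ring
    rw [h2] at h1
    rcases ih (k + 1 + t) (by omega) (k + 1) t rfl hk _ _ (hY'Y.trans hY) h1 with h | h | h
    · exact Or.inl (S.P_mono (S.pt_subset _ _ _) hY'Y h)
    · exact Or.inr (Or.inl (S.B_step hv h))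
    · exact Or.inr (Or.inr h)
  · have h1 : τ⁻¹ * T ^ s * Real.exp (s * a * ((k + 1 : ℕ) : ℝ) + m * (t : ℝ))
        ≤ (Y.card : ℝ) ^ s * mom (S.rel i) p n (S.pt (Sum.inr j) v X) Y := by
      have h2 : s * a * ((k + 1 : ℕ) : ℝ) + m * (t : ℝ)
          = s * a * ((k + 1 : ℕ) : ℝ) + m * ((t + 1 : ℕ) : ℝ) + -m := by push_cast; ring
      rw [h2, Real.exp_add]
      have h3 := mul_le_mul_of_nonneg_left hΦ (Real.exp_pos (-m)).le
      have h4 := mul_le_mul_of_nonneg_left h hYs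
      linarith only [h3, h4]
    rcases ih (k + 1 + t) (by omega) (k + 1) t rfl hk _ _ hY h1 with h | h | h
    · exact Or.inl (S.P_mono (S.pt_subset _ _ _) Subset.rfl h)
    · exact Or.inr (Or.inl (S.B_step hv h))
    · exact Or.inr (Or.inr h)

/-- Choice of the moment order and of the two multipliers. -/
lemma exists_params (ρ σ : ℕ) {L s a m u M : ℝ} (hs : 0 < s) (hL : 0 ≤ L)
    (hM : σ * Real.exp (-m) ≤ M) (hM1 : M < 1) (hu : ρ * Real.exp (-u) ≤ 1 - M)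
    (hx : s * L < (s * a - u) * (1 - M)) :
    ∃ (n : ℕ) (l₁ l₂ τ : ℝ), 1 ≤ n ∧ 0 < l₁ ∧ l₁ ≤ l₂ ∧ 0 < τ ∧
      n * (l₁ + (l₂ - l₁) * (σ * Real.exp (-m)))
      + (ρ * Real.exp (s * L - s * a) * (l₁ ^ n)⁻¹ + σ * Real.exp (s * L - m) * (l₂ ^ n)⁻¹)
      ≤ (n + 1) * (1 - τ) := by
  set g := s * a - s * L - u with hg
  have hsL : 0 ≤ s * L := by positivity
  have hM0 : 0 ≤ M := le_trans (by positivity) hM
  have hg1 : s * L * M < g * (1 - M) := by rw [hg]; linarith only [hx]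
  have hg0 : 0 < g := by
    by_contra h
    push Not at h
    have : g * (1 - M) ≤ 0 := mul_nonpos_of_nonpos_of_nonneg h (by linarith)
    have : 0 ≤ s * L * M := by positivity
    linarith
  set c := -g + (s * L + g) * (σ * Real.exp (-m)) with hc
  have hc0 : c < 0 := by
    have : (s * L + g) * (σ * Real.exp (-m)) ≤ (s * L + g) * M :=
      mul_le_mul_of_nonneg_left hM (by linarith)
    rw [hc]; linarith only [hx, this]
  have t1 := (Real.tendsto_one_add_div_pow_exp (-g)).inv₀ (Real.exp_pos _).ne'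
  have t2 := (Real.tendsto_one_add_div_pow_exp (s * L)).inv₀ (Real.exp_pos _).ne'
  have t3 := (t1.const_mul (ρ * Real.exp (s * L - s * a))).add
    (t2.const_mul (σ * Real.exp (s * L - m)))
  have hlim : ρ * Real.exp (s * L - s * a) * (Real.exp (-g))⁻¹
      + σ * Real.exp (s * L - m) * (Real.exp (s * L))⁻¹ < 1 - c := by
    have e1 : Real.exp (s * L - s * a) * (Real.exp (-g))⁻¹ = Real.exp (-u) := by
      rw [← Real.exp_neg, ← Real.exp_add]; congr 1; rw [hg]; ring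
    have e2 : Real.exp (s * L - m) * (Real.exp (s * L))⁻¹ = Real.exp (-m) := by
      rw [← Real.exp_neg, ← Real.exp_add]; congr 1; ring
    rw [mul_assoc, mul_assoc, e1, e2]; linarith only [hM, hu, hc0]
  have h4 := t3.eventually (gt_mem_nhds hlim)
  have h5 : ∀ᶠ n : ℕ in atTop, g < (n : ℝ) :=
    tendsto_natCast_atTop_atTop.eventually (eventually_gt_atTop g)
  obtain ⟨n, hn, hn5, hn1⟩ := (h4.and (h5.and (eventually_ge_atTop 1))).exists
  have hn0 : (0 : ℝ) < n := lt_trans hg0 hn5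
  set E := ρ * Real.exp (s * L - s * a) * ((1 + -g / n) ^ n)⁻¹
      + σ * Real.exp (s * L - m) * ((1 + s * L / n) ^ n)⁻¹ with hE
  refine ⟨n, 1 + -g / n, 1 + s * L / n, (1 - c - E) / (n + 1), hn1, ?_, ?_, ?_, ?_⟩
  · have : g / n < 1 := (div_lt_one hn0).2 hn5
    rw [neg_div]; linarith only [this]
  · have : -g / n ≤ s * L / n := div_le_div_of_nonneg_right (by linarith only [hsL, hg0]) hn0.le
    linarith only [this]
  · apply div_pos _ (by positivity); linarith only [hn]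
  · rw [← hE]
    have e1 : (n : ℝ) * (1 + -g / n + (1 + s * L / n - (1 + -g / n)) * (σ * Real.exp (-m)))
        = n + c := by rw [hc]; field_simp; ring
    have e2 : (n + 1 : ℝ) * (1 - (1 - c - E) / (n + 1)) = n + c + E := by field_simp; ring
    rw [e1, e2]

lemma mom_start (r : V → V → Prop) (p e : ℝ) (he : 0 ≤ e) (n : ℕ) (X Y : Finset V)
    (h : X.card * e ≤ ∑ u ∈ X, exc r p Y u) : X.card * e ^ (n + 1) ≤ mom r p n X Y := by
  have h1 : ∑ u ∈ X, (n + 1 : ℝ) * e ^ n * exc r p Y u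
      ≤ ∑ u ∈ X, ((max (exc r p Y u) 0) ^ (n + 1) + n * e ^ (n + 1)) := by
    refine sum_le_sum fun u _ => le_trans ?_ (tangent_pow n (le_max_right _ _) he)
    exact mul_le_mul_of_nonneg_left (le_max_left _ _) (by positivity)
  rw [← mul_sum, sum_add_distrib, sum_const, nsmul_eq_mul] at h1
  have h2 : (n + 1 : ℝ) * e ^ n * (X.card * e) ≤ (n + 1 : ℝ) * e ^ n * ∑ u ∈ X, exc r p Y u :=
    mul_le_mul_of_nonneg_left h (by positivity)
  have h3 : (n + 1 : ℝ) * e ^ n * (X.card * e) = (n + 1) * (X.card * e ^ (n + 1)) := by ring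
  unfold mom
  linarith only [h1, h2, h3]

lemma Sys.card_split (S : Sys V ρ σ) {v : V} {X : Finset V} (hv : v ∈ X) :
    (X.card : ℝ) = 1 + (∑ j : Fin ρ, ((S.pt (Sum.inl j) v X).card : ℝ)
      + ∑ j : Fin σ, ((S.pt (Sum.inr j) v X).card : ℝ)) := by
  have := S.sum_split (fun _ => (1 : ℝ)) hv
  simpa using this

/-- If every vertex of `X ⊆ Y` has small side classes in `Y`, some spine class is dense
from `X` to `Y`. -/
lemma Sys.exists_dense (S : Sys V ρ σ) (hρ : 0 < ρ) {β p e : ℝ} {X Y : Finset V} (hXY : X ⊆ Y)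
    (hY : 0 < Y.card) (hd : ∀ u ∈ X, ∀ j, ((S.pt (Sum.inr j) u Y).card : ℝ) ≤ β * Y.card)
    (he : 1 + (ρ * (p + e) + σ * β) * Y.card ≤ Y.card) :
    ∃ i, X.card * e ≤ ∑ u ∈ X, exc (S.rel i) p Y u := by
  have hY' : (0 : ℝ) < Y.card := by exact_mod_cast hY
  have h1 : ∀ u ∈ X, (ρ : ℝ) * e ≤ ∑ i : Fin ρ, exc (S.rel i) p Y u := by
    intro u hu
    have h2 := S.card_split (hXY hu)
    have h3 : ∑ j : Fin σ, ((S.pt (Sum.inr j) u Y).card : ℝ) ≤ σ * (β * Y.card) := by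
      have := sum_le_sum (s := (univ : Finset (Fin σ))) fun j _ => hd u hu j
      simpa using this
    have h4 : ∑ i : Fin ρ, exc (S.rel i) p Y u
        = (∑ j : Fin ρ, ((S.pt (Sum.inl j) u Y).card : ℝ)) / Y.card - ρ * p := by
      unfold exc
      rw [sum_sub_distrib, sum_div]
      simp only [S.filter_rel, sum_const, card_univ, Fintype.card_fin, nsmul_eq_mul]
    rw [h4, le_sub_iff_add_le, le_div_iff₀ hY']
    linarith only [he, h2, h3]
  by_contra hcon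
  push Not at hcon
  have h5 : ∑ i : Fin ρ, ∑ u ∈ X, exc (S.rel i) p Y u < ∑ _i : Fin ρ, X.card * e :=
    sum_lt_sum_of_nonempty ⟨⟨0, hρ⟩, mem_univ _⟩ fun i _ => hcon i
  rw [sum_comm] at h5
  have h6 : ∑ _u ∈ X, (ρ : ℝ) * e ≤ ∑ u ∈ X, ∑ i : Fin ρ, exc (S.rel i) p Y u := sum_le_sum h1
  simp only [sum_const, card_univ, Fintype.card_fin, nsmul_eq_mul] at h5 h6
  linarith only [h5, h6]

/-- Admissible parameters of a book. -/
def BookOK (ρ σ : ℕ) (L s a m b : ℝ) : Prop :=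
  0 < s ∧ 0 ≤ L ∧ 0 ≤ m ∧ 0 ≤ a ∧ ρ * Real.exp (-L) + σ * Real.exp (-b) < 1 ∧
    ∃ u M : ℝ, σ * Real.exp (-m) ≤ M ∧ M < 1 ∧ ρ * Real.exp (-u) ≤ 1 - M ∧
      s * L < (s * a - u) * (1 - M)

/-- The book theorem. -/
theorem book_thm {ρ σ : ℕ} (hρ : 0 < ρ) {L s a m b : ℝ} (h : BookOK ρ σ L s a m b) :
    ∃ K : ℝ, 0 < K ∧ ∀ (V : Type) (S : Sys V ρ σ) (k t : ℕ) (X Y : Finset V) (T : ℝ) (R : Prop),
      X ⊆ Y → 1 ≤ T →
      (∀ k' ≤ k, ∀ Y' ⊆ Y, T * Real.exp (a * k') ≤ Y'.card → S.A k' Y' ∨ R) →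
      (∀ u ∈ X, ∀ j, ((S.pt (Sum.inr j) u Y).card : ℝ) ≤ Real.exp (-b) * Y.card) →
      K * T ^ s * Real.exp (s * a * k + m * t) ≤ X.card * (Y.card : ℝ) ^ s →
      S.A k Y ∨ S.B t X ∨ R := by
  obtain ⟨hs, hL, hm, ha, hb, u, M, h1, h2, h3, h4⟩ := h
  obtain ⟨n, l₁, l₂, τ, hn, hl₁, hl, hτ, hc⟩ := exists_params ρ σ hs hL h1 h2 h3 h4
  set g := 1 - (ρ * Real.exp (-L) + σ * Real.exp (-b)) with hg
  have hg0 : 0 < g := by rw [hg]; linarith only [hb]
  have hρ' : (0 : ℝ) < ρ := by exact_mod_cast hρ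
  set e := g / (2 * ρ) with he
  have he0 : 0 < e := by positivity
  refine ⟨max (τ⁻¹ * (e ^ (n + 1))⁻¹) ((2 / g) ^ (1 + s)), lt_max_of_lt_left (by positivity), ?_⟩
  intro V S k t X Y T R hXY hT hfin hd hK
  have hT0 : 0 < T := by linarith only [hT]
  have hTs : 1 ≤ T ^ s := Real.one_le_rpow hT hs.le
  have hE : 1 ≤ Real.exp (s * a * k + m * t) := Real.one_le_exp (by positivity)
  have hXY' : (X.card : ℝ) ≤ Y.card := by exact_mod_cast card_le_card hXY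
  have hYs : 0 ≤ (Y.card : ℝ) ^ s := Real.rpow_nonneg (Nat.cast_nonneg _) _
  have hY1 : 2 / g ≤ Y.card := by
    have a1 : (2 / g) ^ (1 + s) ≤ X.card * (Y.card : ℝ) ^ s := by
      refine le_trans ?_ hK
      have b1 : (2 / g) ^ (1 + s) ≤ max (τ⁻¹ * (e ^ (n + 1))⁻¹) ((2 / g) ^ (1 + s)) :=
        le_max_right _ _
      have b2 : 0 ≤ (2 / g) ^ (1 + s) := by positivity
      have b3 : 1 ≤ T ^ s * Real.exp (s * a * k + m * t) := by linarith only [hTs, hE, mul_nonneg_of_nonpos_of_nonpos (Mathlib.Tactic.Linarith.sub_nonpos_of_le hTs) (Mathlib.Tactic.Linarith.sub_nonpos_of_le hE)]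
      rw [mul_assoc]
      linarith only [b1, b3, b2, mul_nonneg_of_nonpos_of_nonpos (Mathlib.Tactic.Linarith.sub_nonpos_of_le b1) (Mathlib.Tactic.Linarith.sub_nonpos_of_le b3), mul_nonneg_of_nonpos_of_nonpos (Mathlib.Tactic.Linarith.sub_nonpos_of_le b2) (Mathlib.Tactic.Linarith.sub_nonpos_of_le b3)]
    have a2 : (X.card : ℝ) * (Y.card : ℝ) ^ s ≤ (Y.card : ℝ) ^ (1 + s) := by
      rw [Real.rpow_add' (Nat.cast_nonneg _) (by positivity), Real.rpow_one]
      exact mul_le_mul_of_nonneg_right hXY' hYs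
    exact (Real.rpow_le_rpow_iff (by positivity) (Nat.cast_nonneg _) (by positivity)).1
      (a1.trans a2)
  have hY0 : (0 : ℝ) < Y.card := lt_of_lt_of_le (by positivity) hY1
  obtain ⟨i, hi⟩ := S.exists_dense hρ (p := Real.exp (-L)) (e := e) hXY
    (by exact_mod_cast hY0) hd (by
      have a1 : (ρ : ℝ) * (Real.exp (-L) + e) + σ * Real.exp (-b) = 1 - g / 2 := by
        rw [he, hg]; field_simp; ring
      rw [a1]
      rw [div_le_iff₀ hg0] at hY1
      linarith only [hY1])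
  have h5 := mom_start (S.rel i) (Real.exp (-L)) e he0.le n X Y hi
  have h6 : τ⁻¹ * T ^ s * Real.exp (s * a * k + m * t)
      ≤ (Y.card : ℝ) ^ s * mom (S.rel i) (Real.exp (-L)) n X Y := by
    have b1 : τ⁻¹ * (e ^ (n + 1))⁻¹ ≤ max (τ⁻¹ * (e ^ (n + 1))⁻¹) ((2 / g) ^ (1 + s)) :=
      le_max_left _ _
    have b2 : τ⁻¹ * (e ^ (n + 1))⁻¹ * T ^ s * Real.exp (s * a * k + m * t)
        ≤ X.card * (Y.card : ℝ) ^ s := by
      refine le_trans ?_ hK
      gcongr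
    have b3 := mul_le_mul_of_nonneg_left b2 (pow_pos he0 (n + 1)).le
    have b4 : e ^ (n + 1) * (τ⁻¹ * (e ^ (n + 1))⁻¹ * T ^ s * Real.exp (s * a * k + m * t))
        = τ⁻¹ * T ^ s * Real.exp (s * a * k + m * t) := by field_simp
    have b5 := mul_le_mul_of_nonneg_left h5 hYs
    rw [b4] at b3
    linarith only [b3, b5]
  rcases S.book_ind i hs hm hn hl₁ hl hτ hT0 hc k Y R hfin _ k t rfl le_rfl X Y Subset.rfl h6
    with h | h
  · exact Or.inl (S.P_A hXY h)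
  · exact Or.inr h

end Pool.Agent.Work.MP_e10cd8_co
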