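import Pool.Agent.Work.MP_e10cd8_co.Book

/-!
The integer checker for chains of side neighbourhoods, and the numerical part of its soundness.
-/

namespace Pool.Agent.Work.MP_e10cd8_co

open Finset Filter Topology

def D : ℕ := 1008000000
def W : ℕ := 1000000000000000

lemma D_pos : (0 : ℝ) < D := by unfold D; norm_num
lemma W_pos : (0 : ℝ) < W := by unfold W; norm_num

def horner (w d y : ℕ) : ℕ → ℕ → ℕ
  | 0, t => t
  | j + 1, t => horner w d y j (w + y * t / (d * (j + 1)))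

def sqW (t : ℕ) : ℕ := t * t / W

def expLo (x : ℕ) : ℕ := sqW (sqW (sqW (horner W D (x / 8) 12 0)))

lemma horner_le (w d y : ℕ) (hd : (0 : ℝ) < d) : ∀ (j t : ℕ), (horner w d y j t : ℝ)
    ≤ w * ∑ i ∈ range j, ((y : ℝ) / d) ^ i / i.factorial + ((y : ℝ) / d) ^ j / j.factorial * t
  | 0, t => by simp [horner]
  | j + 1, t => by
    have h := horner_le w d y hd j (w + y * t / (d * (j + 1)))
    rw [horner]
    refine h.trans ?_
    have h1 : ((w + y * t / (d * (j + 1)) : ℕ) : ℝ) ≤ w + (y : ℝ) * t / (d * (j + 1)) := by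
      have := @Nat.cast_div_le ℝ _ _ _ (y * t) (d * (j + 1))
      push_cast at this ⊢
      linarith only [this]
    have h2 : 0 ≤ ((y : ℝ) / d) ^ j / j.factorial := by positivity
    have h3 := mul_le_mul_of_nonneg_left h1 h2
    rw [sum_range_succ, Nat.factorial_succ]
    have h4 : ((y : ℝ) / d) ^ j / j.factorial * (w + (y : ℝ) * t / (d * (j + 1)))
        = w * (((y : ℝ) / d) ^ j / j.factorial)
          + ((y : ℝ) / d) ^ (j + 1) / (((j + 1) * j.factorial : ℕ) : ℝ) * t := by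
      have : (0 : ℝ) < j.factorial := by exact_mod_cast j.factorial_pos
      rw [pow_succ]
      push_cast; field_simp
    rw [mul_add (w : ℝ)]
    linarith only [h3, h4]

lemma sqW_le {t : ℕ} {x : ℝ} (h : (t : ℝ) ≤ W * Real.exp x) :
    (sqW t : ℝ) ≤ W * Real.exp (2 * x) := by
  have h1 : (sqW t : ℝ) ≤ (t : ℝ) * t / W := by
    have := @Nat.cast_div_le ℝ _ _ _ (t * t) W
    unfold sqW; push_cast at this; exact this
  refine h1.trans ?_
  rw [div_le_iff₀ W_pos, two_mul, Real.exp_add]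
  have h2 : (t : ℝ) * t ≤ (W * Real.exp x) * (W * Real.exp x) :=
    mul_le_mul h h (Nat.cast_nonneg _) (le_trans (Nat.cast_nonneg _) h)
  linarith only [h2]

lemma expLo_le (x : ℕ) : (expLo x : ℝ) ≤ W * Real.exp (x / D) := by
  have hD := D_pos
  have h1 : (horner W D (x / 8) 12 0 : ℝ) ≤ W * Real.exp (((x / 8 : ℕ) : ℝ) / D) := by
    refine (horner_le _ _ _ hD _ _).trans ?_
    have := Real.sum_le_exp_of_nonneg (x := ((x / 8 : ℕ) : ℝ) / D) (by positivity) 12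
    have h2 := mul_le_mul_of_nonneg_left this W_pos.le
    simpa using h2
  refine (sqW_le (sqW_le (sqW_le h1))).trans ?_
  refine mul_le_mul_of_nonneg_left (Real.exp_le_exp.2 ?_) W_pos.le
  have h3 : ((x / 8 : ℕ) : ℝ) ≤ (x : ℝ) / 8 := by
    have := @Nat.cast_div_le ℝ _ _ _ x 8
    simpa using this
  have h4 : 2 * (2 * (2 * (((x / 8 : ℕ) : ℝ) / D))) = (8 * ((x / 8 : ℕ) : ℝ)) / D := by ring
  rw [h4]
  exact div_le_div_of_nonneg_right (by linarith only [h3]) hD.le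

lemma exp_neg_le {x : ℕ} (h : 0 < expLo x) : Real.exp (-((x : ℝ) / D)) ≤ W / expLo x := by
  have h0 : (0 : ℝ) < expLo x := by exact_mod_cast h
  rw [le_div_iff₀ h0, Real.exp_neg]
  have := expLo_le x
  have h1 := Real.exp_pos ((x : ℝ) / D)
  rw [inv_mul_le_iff₀ h1]
  linarith only [this]

def bkOK (ρ σ a L m u s b : ℕ) : Bool :=
  let eL := expLo L
  let eb := expLo b
  let em := expLo m
  let eu := expLo u
  Nat.blt 0 s && Nat.blt (W * (ρ * eb + σ * eL)) (eL * eb) && Nat.blt (σ * W) em &&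
    Nat.blt (ρ * W * em + σ * W * eu) (eu * em) &&
    Nat.blt (s * L * em + u * D * em + s * a * (σ * W)) (s * a * em + u * D * (σ * W))

lemma bkOK_sound {ρ σ a L m u s b : ℕ} (h : bkOK ρ σ a L m u s b = true) :
    BookOK ρ σ (L / D) (s / D) (a / D) (m / D) (b / D) := by
  simp only [bkOK, Bool.and_eq_true, Nat.blt_eq] at h
  obtain ⟨⟨⟨⟨h1, h2⟩, h3⟩, h4⟩, h5⟩ := h
  have hD := D_pos
  have hW := W_pos
  have pL : 0 < expLo L := Nat.pos_of_ne_zero fun h => by simp [h] at h2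
  have pb : 0 < expLo b := Nat.pos_of_ne_zero fun h => by simp [h] at h2
  have pm : 0 < expLo m := by omega
  have pu : 0 < expLo u := Nat.pos_of_ne_zero fun h => by simp [h] at h4
  have eL := exp_neg_le pL
  have eb := exp_neg_le pb
  have em := exp_neg_le pm
  have eu := exp_neg_le pu
  have qL : (0 : ℝ) < expLo L := by exact_mod_cast pL
  have qb : (0 : ℝ) < expLo b := by exact_mod_cast pb
  have qm : (0 : ℝ) < expLo m := by exact_mod_cast pm
  have qu : (0 : ℝ) < expLo u := by exact_mod_cast pu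
  have g1 : (0 : ℝ) < s := by exact_mod_cast h1
  have g2 : (W : ℝ) * (ρ * expLo b + σ * expLo L) < expLo L * expLo b := by exact_mod_cast h2
  have g3 : (σ : ℝ) * W < expLo m := by exact_mod_cast h3
  have g4 : (ρ : ℝ) * W * expLo m + σ * W * expLo u < expLo u * expLo m := by exact_mod_cast h4
  have g5 : (s : ℝ) * L * expLo m + u * D * expLo m + s * a * (σ * W)
      < s * a * expLo m + u * D * (σ * W) := by exact_mod_cast h5
  have hρ : (0 : ℝ) ≤ ρ := Nat.cast_nonneg _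
  have hσ : (0 : ℝ) ≤ σ := Nat.cast_nonneg _
  refine ⟨by positivity, by positivity, by positivity, by positivity, ?_,
    u / D, σ * (W / expLo m), mul_le_mul_of_nonneg_left em hσ, ?_, ?_, ?_⟩
  · have a1 := mul_le_mul_of_nonneg_left eL hρ
    have a2 := mul_le_mul_of_nonneg_left eb hσ
    have a3 : (ρ : ℝ) * (W / expLo L) + σ * (W / expLo b) < 1 := by
      rw [← mul_div_assoc, ← mul_div_assoc, div_add_div _ _ qL.ne' qb.ne', div_lt_one (by positivity)]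
      linarith only [g2]
    linarith only [a1, a2, a3]
  · rw [← mul_div_assoc, div_lt_one qm]; exact g3
  · have a1 := mul_le_mul_of_nonneg_left eu hρ
    have a3 : (ρ : ℝ) * (W / expLo u) + σ * (W / expLo m) < 1 := by
      rw [← mul_div_assoc, ← mul_div_assoc, div_add_div _ _ qu.ne' qm.ne', div_lt_one (by positivity)]
      linarith only [g4]
    linarith only [a1, a3]
  · have e1 : (s : ℝ) / D * (L / D) = (s * L * expLo m) / (D * D * expLo m) := by field_simp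
    have e2 : ((s : ℝ) / D * (a / D) - u / D) * (1 - σ * (W / expLo m))
        = (s * a * expLo m + u * D * (σ * W) - u * D * expLo m - s * a * (σ * W))
          / (D * D * expLo m) := by field_simp; ring
    rw [e1, e2]
    exact div_lt_div_of_pos_right (by linarith only [g5]) (by positivity)

/-- What the book theorem says about the sizes `n t` along a chain of side neighbourhoods. -/
def Seq (ρ σ : ℕ) (K : ℝ → ℝ → ℝ → ℝ → ℝ → ℝ) (Q : ℕ × ℕ → Prop) (C : ℝ) (k l : ℕ)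
    (n : ℕ → ℝ) : Prop :=
  (∀ t, 0 ≤ n t) ∧ ∀ (q : ℕ × ℕ) (L s m b : ℝ), Q q → BookOK ρ σ L s (q.1 / D) m b →
    ∀ t₀ t₁ : ℕ, t₀ ≤ t₁ → 1 ≤ t₁ → t₁ ≤ l →
      K L s (q.1 / D) m b * (2 * C) ^ s
          * Real.exp (s * (q.1 / D) * k + s * (q.2 / D) * t₁ + m * t₀) ≤ n t₀ * n t₁ ^ s →
      Real.exp (-b) * n t₁ ≤ n (t₁ - 1)

def Slopes (n : ℕ → ℝ) (k : ℕ) : ℝ → List (ℕ × ℕ) → Prop
  | _, [] => True
  | up, (τ, u) :: rest =>
    (u ≠ 0 → ∀ t : ℕ, (τ : ℝ) * k < D * t → (D : ℝ) * t ≤ up →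
      Real.exp (-((u : ℝ) / D)) * n t ≤ n (t - 1)) ∧ Slopes n k (τ * k) rest

lemma desc {n : ℕ → ℝ} {u : ℝ} (t₀ : ℕ) : ∀ d : ℕ,
    (∀ t, t₀ < t → t ≤ t₀ + d → Real.exp (-u) * n t ≤ n (t - 1)) →
    Real.exp (-(u * d)) * n (t₀ + d) ≤ n t₀
  | 0, _ => by simp
  | d + 1, h => by
    have h1 := desc t₀ d fun t a b => h t a (by omega)
    have h2 := h (t₀ + (d + 1)) (by omega) le_rfl
    have h3 : t₀ + (d + 1) - 1 = t₀ + d := by omega
    rw [h3] at h2
    have h4 : Real.exp (-(u * ((d + 1 : ℕ) : ℝ))) = Real.exp (-(u * d)) * Real.exp (-u) := by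
      rw [← Real.exp_add]; congr 1; push_cast; ring
    rw [h4, mul_assoc]
    exact (mul_le_mul_of_nonneg_left h2 (Real.exp_pos _).le).trans h1

lemma desc₂ {n : ℕ → ℝ} (hn : ∀ t, 0 ≤ n t) {u lo up : ℝ} (hu : 0 ≤ u) (hlo : 0 ≤ lo)
    (h : lo ≤ up)
    (hs : ∀ t : ℕ, lo < D * t → (D : ℝ) * t ≤ up → Real.exp (-(u / D)) * n t ≤ n (t - 1)) :
    Real.exp (-(u / D)) * Real.exp (-(u * (up - lo) / D ^ 2)) * n ⌊up / D⌋₊ ≤ n ⌊lo / D⌋₊ := by
  have hD := D_pos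
  have h1 : ⌊lo / D⌋₊ ≤ ⌊up / D⌋₊ := Nat.floor_le_floor (div_le_div_of_nonneg_right h hD.le)
  obtain ⟨d, hd⟩ := Nat.exists_eq_add_of_le h1
  have hup : 0 ≤ up / D := div_nonneg (hlo.trans h) hD.le
  have h2 := desc (n := n) (u := u / D) ⌊lo / D⌋₊ d (by
    intro t a b
    apply hs
    · have := Nat.lt_of_floor_lt a
      rw [div_lt_iff₀ hD] at this; linarith only [this]
    · rw [← hd] at b
      have := (Nat.le_floor_iff hup).1 b
      rw [le_div_iff₀ hD] at this; linarith only [this])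
  rw [← hd] at h2
  refine le_trans (mul_le_mul_of_nonneg_right ?_ (hn _)) h2
  rw [← Real.exp_add]
  apply Real.exp_le_exp.2
  have h3 : (⌊up / D⌋₊ : ℝ) ≤ up / D := Nat.floor_le hup
  have h4 : lo / D < ⌊lo / D⌋₊ + 1 := Nat.lt_floor_add_one _
  have h5 : (⌊up / D⌋₊ : ℝ) = ⌊lo / D⌋₊ + d := by rw [hd]; push_cast; rfl
  have h6 : (d : ℝ) ≤ 1 + (up - lo) / D := by rw [sub_div]; linarith only [h3, h4, h5]
  have h7 : u / D * d ≤ u / D * (1 + (up - lo) / D) :=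
    mul_le_mul_of_nonneg_left h6 (by positivity)
  have h8 : u / D * (1 + (up - lo) / D) = u / D + u * (up - lo) / D ^ 2 := by field_simp
  linarith only [h7, h8]

def walk : ℕ → ℕ → List (ℕ × ℕ) → Option (ℕ × ℕ)
  | 0, τ, _ => some (0, τ)
  | _ + 1, _, [] => none
  | c + 1, τ, (τ', u) :: rest =>
    if Nat.blt 0 u && Nat.ble τ' τ then
      (walk c τ' rest).map fun p => (p.1 + u * (τ - τ'), p.2)
    else none

lemma walk_sound : ∀ (c τ : ℕ) (segs : List (ℕ × ℕ)) (Δ τ₀ : ℕ), walk c τ segs = some (Δ, τ₀) →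
    τ₀ ≤ τ ∧ ∃ δ : ℝ, 0 < δ ∧ ∀ (k : ℕ) (n : ℕ → ℝ), (∀ t, 0 ≤ n t) → Slopes n k (τ * k) segs →
      δ * Real.exp (-((Δ : ℝ) * k / D ^ 2)) * n ⌊(τ : ℝ) * k / D⌋₊ ≤ n ⌊(τ₀ : ℝ) * k / D⌋₊
  | 0, τ, segs, Δ, τ₀, h => by
    simp only [walk, Option.some.injEq, Prod.mk.injEq] at h
    obtain ⟨rfl, rfl⟩ := h
    exact ⟨le_rfl, 1, one_pos, fun k n _ _ => by simp⟩
  | c + 1, τ, [], Δ, τ₀, h => by simp [walk] at h
  | c + 1, τ, (τ', u) :: rest, Δ, τ₀, h => by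
    rw [walk] at h
    split_ifs at h with hc
    simp only [Bool.and_eq_true, Nat.blt_eq, Nat.ble_eq] at hc
    obtain ⟨⟨Δ', τ₁⟩, h1, h2⟩ := Option.map_eq_some_iff.1 h
    simp only [Prod.mk.injEq] at h2
    obtain ⟨rfl, rfl⟩ := h2
    obtain ⟨h3, δ, hδ, h4⟩ := walk_sound c τ' rest Δ' τ₁ h1
    refine ⟨h3.trans hc.2, δ * Real.exp (-((u : ℝ) / D)), by positivity, ?_⟩
    intro k n hn hs
    obtain ⟨hs1, hs2⟩ := hs
    have hτ : (τ' : ℝ) ≤ τ := by exact_mod_cast hc.2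
    have h5 := desc₂ hn (u := u) (lo := τ' * k) (up := τ * k) (Nat.cast_nonneg _) (by positivity)
      (mul_le_mul_of_nonneg_right hτ (Nat.cast_nonneg _)) (hs1 (by omega))
    refine le_trans ?_ (h4 k n hn hs2)
    have h6 := mul_le_mul_of_nonneg_left h5
      (show 0 ≤ δ * Real.exp (-((Δ' : ℝ) * k / D ^ 2)) by positivity)
    refine le_trans (le_of_eq ?_) h6
    have h7 : Real.exp (-(((Δ' + u * (τ - τ') : ℕ) : ℝ) * k / D ^ 2))
        = Real.exp (-((Δ' : ℝ) * k / D ^ 2))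
          * Real.exp (-((u : ℝ) * (τ * k - τ' * k) / D ^ 2)) := by
      rw [← Real.exp_add]; congr 1; push_cast [Nat.cast_sub hc.2]; ring
    rw [h7]; ring

/-- One application of the book theorem inside a chain. -/
lemma apply_book {ρ σ : ℕ} {K : ℝ → ℝ → ℝ → ℝ → ℝ → ℝ} {Q : ℕ × ℕ → Prop} {q : ℕ × ℕ}
    {L m s b : ℕ} (hq : Q q)
    (hb : BookOK ρ σ (L / D) (s / D) (q.1 / D) (m / D) (b / D)) {δ₀ δ₁ : ℝ} (h₀ : 0 < δ₀)
    (h₁ : 0 < δ₁) :
    ∀ᶠ C : ℝ in atTop, ∀ (k l : ℕ) (n : ℕ → ℝ), Seq ρ σ K Q C k l n →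
      ∀ (t₀ t₁ : ℕ) (η Γ₀ Γ₁ T₀ : ℝ), t₀ ≤ t₁ → 1 ≤ t₁ → t₁ ≤ l → (D : ℝ) * t₀ ≤ T₀ →
      δ₀ * C * Real.exp ((η - Γ₀) / D ^ 2) ≤ n t₀ →
      δ₁ * C * Real.exp ((η - Γ₁) / D ^ 2) ≤ n t₁ →
      s * q.1 * D * k + m * D * T₀ + s * q.2 * (D * t₁) + D * Γ₀ + s * Γ₁ ≤ (D + s) * η →
      Real.exp (-((b : ℝ) / D)) * n t₁ ≤ n (t₁ - 1) := by
  have hD := D_pos
  set s' : ℝ := s / D with hs'
  have hs0 : 0 < s' := hb.1
  filter_upwards [eventually_gt_atTop (0 : ℝ), eventually_ge_atTop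
    (K (L / D) s' (q.1 / D) (m / D) (b / D) * 2 ^ s' / (δ₀ * δ₁ ^ s'))] with C hC hC'
  intro k l n hn t₀ t₁ η Γ₀ Γ₁ T₀ a1 a2 a3 a4 b0 b1 hI
  refine hn.2 q _ _ _ _ hq hb t₀ t₁ a1 a2 a3 ?_
  have c1 : (δ₁ * C * Real.exp ((η - Γ₁) / D ^ 2)) ^ s' ≤ n t₁ ^ s' :=
    Real.rpow_le_rpow (by positivity) b1 hs0.le
  have c2 := mul_le_mul b0 c1 (by positivity) (hn.1 _)
  refine le_trans ?_ c2
  rw [Real.mul_rpow (by positivity) (by positivity), Real.mul_rpow (by positivity) (by positivity),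
    Real.mul_rpow (by positivity) (by positivity), ← Real.exp_mul]
  have c3 : s' * (q.1 / D) * k + s' * (q.2 / D) * t₁ + m / D * t₀
      ≤ (η - Γ₀) / D ^ 2 + (η - Γ₁) / D ^ 2 * s' := by
    have d1 : (m : ℝ) * D * (D * t₀) ≤ m * D * T₀ := mul_le_mul_of_nonneg_left a4 (by positivity)
    have d2 : s' * (q.1 / D) * k + s' * (q.2 / D) * t₁ + m / D * t₀
        = (s * q.1 * D * k + m * D * (D * t₀) + s * q.2 * (D * t₁)) / D ^ 3 := by
      rw [hs']; field_simp; ring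
    have d3 : (η - Γ₀) / D ^ 2 + (η - Γ₁) / D ^ 2 * s'
        = ((D + s) * η - D * Γ₀ - s * Γ₁) / D ^ 3 := by rw [hs']; field_simp; ring
    rw [d2, d3]
    exact div_le_div_of_nonneg_right (by linarith only [hI, d1]) (by positivity)
  have c4 := Real.exp_le_exp.2 c3
  rw [Real.exp_add ((η - Γ₀) / D ^ 2)] at c4
  have c5 : K (L / D) s' (q.1 / D) (m / D) (b / D) * 2 ^ s' ≤ δ₀ * C * δ₁ ^ s' := by
    rw [div_le_iff₀ (by positivity)] at hC'; linarith only [hC']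
  have c6 : 0 < C ^ s' := Real.rpow_pos_of_pos hC _
  calc K (L / D) s' (q.1 / D) (m / D) (b / D) * (2 ^ s' * C ^ s')
        * Real.exp (s' * (q.1 / D) * k + s' * (q.2 / D) * t₁ + m / D * t₀)
      = (K (L / D) s' (q.1 / D) (m / D) (b / D) * 2 ^ s') * (C ^ s'
        * Real.exp (s' * (q.1 / D) * k + s' * (q.2 / D) * t₁ + m / D * t₀)) := by ring
    _ ≤ (δ₀ * C * δ₁ ^ s') * (C ^ s'
        * (Real.exp ((η - Γ₀) / D ^ 2) * Real.exp ((η - Γ₁) / D ^ 2 * s'))) := by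
        apply mul_le_mul c5 (mul_le_mul_of_nonneg_left c4 c6.le) (by positivity) (by positivity)
    _ = _ := by ring

end Pool.Agent.Work.MP_e10cd8_co
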