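import Pool.Agent.Work.MP_e10cd8_co.Top

/-!
Decoding of packed certificate data.
-/

namespace Pool.Agent.Work.MP_e10cd8_co

def decU (x : ℕ) : Upd :=
  ⟨x % 128, x >>> 7 % 512, x >>> 16 % 16777216 * 1000, x >>> 40 % 16777216 * 1000,
    x >>> 64 % 16777216 * 1000, x >>> 88 % 16777216 * 1000, x >>> 112 % 16777216 * 1000⟩

def decL (x : ℕ) : ℕ → List Upd
  | 0 => []
  | n + 1 => decU (x >>> (136 * n) % 87112285931760246646623899502532662132736) :: decL x n

def decT (x : ℕ) : ℕ → List ℕ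
  | 0 => []
  | n + 1 => (x >>> (24 * n) % 16777216 * 1000) :: decT x n

def decQ (x i : ℕ) : ℕ × ℕ := (x >>> (80 * i) % 1099511627776, x >>> (80 * i + 40) % 1099511627776)

def decQ' (x i : ℕ) : ℕ × ℕ := (x >>> (80 * i + 40) % 1099511627776, x >>> (80 * i) % 1099511627776)

lemma listed_swap (x n : ℕ) : (fun q : ℕ × ℕ => Listed (decQ x) n q.swap) = Listed (decQ' x) n := by
  ext ⟨a, b⟩
  simp only [Listed, decQ, decQ', Prod.swap, Prod.mk.injEq]
  exact exists_congr fun i => by tauto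

def symChk (g : ℕ → ℕ × ℕ) (n : ℕ) : ℕ → Bool
  | 0 => true
  | i + 1 => Nat.beq (g i).1 (g (n - 1 - i)).2 && Nat.beq (g i).2 (g (n - 1 - i)).1 && symChk g n i

lemma symChk_sound {g : ℕ → ℕ × ℕ} {n : ℕ} : ∀ m, symChk g n m = true →
    ∀ i < m, g (n - 1 - i) = (g i).swap
  | 0, _, i, hi => absurd hi (Nat.not_lt_zero _)
  | m + 1, h, i, hi => by
    simp only [symChk, Bool.and_eq_true, Nat.beq_eq] at h
    rcases Nat.lt_succ_iff_lt_or_eq.1 hi with h' | rfl
    · exact symChk_sound m h.2 i h'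
    · exact Prod.ext h.1.2.symm h.1.1.symm

lemma listed_symm {g : ℕ → ℕ × ℕ} {n : ℕ} (h : symChk g n n = true) :
    (fun q : ℕ × ℕ => Listed g n q.swap) = Listed g n := by
  have key : ∀ q : ℕ × ℕ, Listed g n q → Listed g n q.swap := by
    rintro q ⟨i, hi, rfl⟩
    exact ⟨n - 1 - i, by omega, symChk_sound n h i hi⟩
  ext q
  exact ⟨fun h' => by simpa using key _ h', key q⟩

end Pool.Agent.Work.MP_e10cd8_co
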