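import Pool.Agent.Work.MP_e10cd8_co.Dig0
import Pool.Agent.Work.MP_e10cd8_co.Dig1
import Pool.Agent.Work.MP_e10cd8_co.Dig2
import Pool.Agent.Work.MP_e10cd8_co.Dig3
import Pool.Agent.Work.MP_e10cd8_co.Dig4
import Pool.Agent.Work.MP_e10cd8_co.Dig5
import Pool.Agent.Work.MP_e10cd8_co.Dig6
import Pool.Agent.Work.MP_e10cd8_co.Dig7
import Pool.Agent.Work.MP_e10cd8_co.Dig8
import Pool.Agent.Work.MP_e10cd8_co.Dig9

namespace Pool.Agent.Work.MP_e10cd8_co.Dig

theorem cov0 : Covered 1 2 (Listed (decQ qn) 87) 1036800000 := by
  have h := covered_zero 1 2 (Listed (decQ qn) 87)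
  have h := h.step c0_0
  have h := h.step c0_1
  have h := h.step c0_2
  have h := h.step c0_3
  have h := h.step c0_4
  have h := h.step c0_5
  have h := h.step c0_6
  have h := h.step c0_7
  have h := h.step c0_8
  have h := h.step c0_9
  have h := h.step c0_10
  have h := h.step c0_11
  have h := h.step c0_12
  have h := h.step c0_13
  have h := h.step c0_14
  have h := h.step c0_15
  have h := h.step c0_16
  have h := h.step c0_17
  have h := h.step c0_18
  have h := h.step c0_19
  have h := h.step c0_20
  have h := h.step c0_21
  have h := h.step c0_22
  have h := h.step c0_23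
  have h := h.step c0_24
  have h := h.step c0_25
  have h := h.step c0_26
  have h := h.step c0_27
  have h := h.step c0_28
  have h := h.step c0_29
  have h := h.step c0_30
  have h := h.step c0_31
  have h := h.step c0_32
  have h := h.step c0_33
  have h := h.step c0_34
  have h := h.step c0_35
  have h := h.step c0_36
  have h := h.step c0_37
  have h := h.step c0_38
  have h := h.step c0_39
  have h := h.step c0_40
  have h := h.step c0_41
  have h := h.step c0_42
  have h := h.step c0_43
  exact h.step c0_44

theorem cov1 : Covered 2 1 (Listed (decQ' qn) 87) 980000000 := by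
  have h := covered_zero 2 1 (Listed (decQ' qn) 87)
  have h := h.step c1_0
  have h := h.step c1_1
  have h := h.step c1_2
  have h := h.step c1_3
  have h := h.step c1_4
  have h := h.step c1_5
  have h := h.step c1_6
  have h := h.step c1_7
  have h := h.step c1_8
  have h := h.step c1_9
  have h := h.step c1_10
  have h := h.step c1_11
  have h := h.step c1_12
  have h := h.step c1_13
  have h := h.step c1_14
  have h := h.step c1_15
  have h := h.step c1_16
  have h := h.step c1_17
  have h := h.step c1_18
  have h := h.step c1_19
  have h := h.step c1_20
  have h := h.step c1_21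
  have h := h.step c1_22
  have h := h.step c1_23
  have h := h.step c1_24
  have h := h.step c1_25
  have h := h.step c1_26
  have h := h.step c1_27
  have h := h.step c1_28
  have h := h.step c1_29
  have h := h.step c1_30
  have h := h.step c1_31
  have h := h.step c1_32
  have h := h.step c1_33
  have h := h.step c1_34
  have h := h.step c1_35
  have h := h.step c1_36
  have h := h.step c1_37
  have h := h.step c1_38
  have h := h.step c1_39
  have h := h.step c1_40
  exact h.step c1_41

end Pool.Agent.Work.MP_e10cd8_co.Dig
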