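import Pool.Agent.Work.MP_e10cd8_co.Sweep

/-!
Comparison of linear forms with the entropy exponent, and the binomial estimate.
-/

namespace Pool.Agent.Work.MP_e10cd8_co

open Finset

def sqN : ℕ → ℕ → ℕ
  | 0, t => t
  | j + 1, t => sqN j (sqW t)

lemma sqN_le : ∀ (j : ℕ) {t : ℕ} {x : ℝ}, (t : ℝ) ≤ W * Real.exp x →
    (sqN j t : ℝ) ≤ W * Real.exp (2 ^ j * x)
  | 0, t, x, h => by simpa [sqN] using h
  | j + 1, t, x, h => by
    have := sqN_le j (sqW_le h)
    rw [sqN, pow_succ, mul_assoc]; exact this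

def negLo (y : ℕ) : ℕ := sqN 24 (W - (W * y / (D * 2 ^ 24) + 1))

lemma negLo_le (y : ℕ) : (negLo y : ℝ) ≤ W * Real.exp (-((y : ℝ) / D)) := by
  have hD := D_pos
  have hW := W_pos
  have h1 : ((W - (W * y / (D * 2 ^ 24) + 1) : ℕ) : ℝ)
      ≤ W * Real.exp (-((y : ℝ) / (D * 2 ^ 24))) := by
    rcases le_total W (W * y / (D * 2 ^ 24) + 1) with h | h
    · rw [Nat.sub_eq_zero_of_le h, Nat.cast_zero]; positivity
    · rw [Nat.cast_sub h]
      have a1 : W * y < (W * y / (D * 2 ^ 24) + 1) * (D * 2 ^ 24) := by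
        rw [mul_comm _ (D * 2 ^ 24)]
        exact Nat.lt_mul_div_succ _ (by unfold D; norm_num)
      have a2 : (W : ℝ) * y < ((W * y / (D * 2 ^ 24) + 1 : ℕ) : ℝ) * (D * 2 ^ 24) := by
        exact_mod_cast a1
      rw [← div_lt_iff₀ (by positivity)] at a2
      have a3 := Real.add_one_le_exp (-((y : ℝ) / (D * 2 ^ 24)))
      have a4 := mul_le_mul_of_nonneg_left a3 hW.le
      have a5 : (W : ℝ) * (-((y : ℝ) / (D * 2 ^ 24)) + 1) = W - W * y / (D * 2 ^ 24) := by ring
      linarith
  have h2 := sqN_le 24 h1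
  have h3 : (2 : ℝ) ^ 24 * -((y : ℝ) / (D * 2 ^ 24)) = -((y : ℝ) / D) := by field_simp
  rwa [h3] at h2

lemma le_log_of_negLo {y : ℕ} {u v : ℝ} (hu : 0 < u) (hv : 0 < v) (h : W * u ≤ negLo y * v) :
    (y : ℝ) / D ≤ Real.log (v / u) := by
  rw [Real.le_log_iff_exp_le (by positivity), le_div_iff₀ hu]
  have h1 := mul_le_mul_of_nonneg_right (negLo_le y) hv.le
  have h2 : (W : ℝ) * u ≤ W * (Real.exp (-((y : ℝ) / D)) * v) := by linarith
  have h3 := le_of_mul_le_mul_left h2 W_pos
  have h4 := mul_le_mul_of_nonneg_left h3 (Real.exp_pos ((y : ℝ) / D)).le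
  rwa [← mul_assoc, ← Real.exp_add, add_neg_cancel, Real.exp_zero, one_mul] at h4

def ptOK (a b lam y₁ y₂ : ℕ) : Bool :=
  Nat.blt 0 lam && Nat.ble (W * D) (negLo y₁ * (D + lam)) &&
    Nat.ble (W * lam) (negLo y₂ * (2 * (D + lam))) &&
    Nat.ble (a * D + b * lam + 90720000 * min D lam) (y₁ * D + y₂ * lam)

lemma gibbs {x y : ℝ} (hx : 0 < x) (hy : 0 < y) :
    Real.log (1 + x) + x * Real.log (2 * (1 + x) / x)
      ≤ Real.log (1 + y) + x * Real.log (2 * (1 + y) / y) := by
  have h1 := Real.one_sub_inv_le_log_of_pos (x := (1 + y) / (1 + x)) (by positivity)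
  have h2 := Real.one_sub_inv_le_log_of_pos (x := (2 * (1 + y) / y) / (2 * (1 + x) / x))
    (by positivity)
  rw [Real.log_div (by positivity) (by positivity)] at h1 h2
  have h3 := mul_le_mul_of_nonneg_left h2 hx.le
  have h4 : 1 - ((1 + y) / (1 + x))⁻¹ + x * (1 - ((2 * (1 + y) / y) / (2 * (1 + x) / x))⁻¹) = 0 := by
    field_simp; ring
  linarith

lemma ptOK_sound {a b lam y₁ y₂ : ℕ} (h : ptOK a b lam y₁ y₂ = true) {y : ℝ} (hy : 0 < y) :
    (a : ℝ) / D + b / D * (lam / D) + 0.09 * min 1 ((lam : ℝ) / D)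
      ≤ Real.log (1 + y) + lam / D * Real.log (2 * (1 + y) / y) := by
  simp only [ptOK, Bool.and_eq_true, Nat.blt_eq, Nat.ble_eq] at h
  obtain ⟨⟨⟨h0, h1⟩, h2⟩, h3⟩ := h
  have hD := D_pos
  have l0 : (0 : ℝ) < lam := by exact_mod_cast h0
  refine le_trans ?_ (gibbs (by positivity) hy)
  have a1 := le_log_of_negLo (y := y₁) (u := D) (v := D + lam) hD (by positivity)
    (by exact_mod_cast h1)
  have a2 := le_log_of_negLo (y := y₂) (u := lam) (v := 2 * (D + lam)) l0 (by positivity)
    (by exact_mod_cast h2)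
  have e1 : ((D : ℝ) + lam) / D = 1 + lam / D := by field_simp
  have e2 : 2 * ((D : ℝ) + lam) / lam = 2 * (1 + lam / D) / (lam / D) := by field_simp
  rw [e1] at a1
  rw [e2] at a2
  have a3 := mul_le_mul_of_nonneg_left a2 (show (0 : ℝ) ≤ lam / D by positivity)
  have a4 : (a : ℝ) * D + b * lam + 90720000 * min (D : ℝ) lam ≤ y₁ * D + y₂ * lam := by
    exact_mod_cast h3
  have e3 : min 1 ((lam : ℝ) / D) = min (D : ℝ) lam / D := by
    rw [← min_div_div_right hD.le, div_self hD.ne']
  have a5 : (a : ℝ) / D + b / D * (lam / D) + 0.09 * min 1 ((lam : ℝ) / D)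
      = (a * D + b * lam + 90720000 * min (D : ℝ) lam) / (D * D) := by
    rw [e3]
    have : (90720000 : ℝ) = 0.09 * D := by unfold D; norm_num
    rw [this]; field_simp
  have a6 : (y₁ : ℝ) / D + lam / D * (y₂ / D) = (y₁ * D + y₂ * lam) / (D * D) := by field_simp
  have a7 := div_le_div_of_nonneg_right a4 (show (0 : ℝ) ≤ D * D by positivity)
  linarith

/-- The exponent of `2 ^ m * choose (n + m) n`. -/
noncomputable def ent (n m : ℝ) : ℝ := n * Real.log ((n + m) / n) + m * Real.log (2 * (n + m) / m)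

lemma cell_le {a b lo hi y₁ y₂ y₃ y₄ : ℕ} (h₁ : ptOK a b lo y₁ y₂ = true)
    (h₂ : ptOK a b hi y₃ y₄ = true) (hs : hi ≤ D ∨ D ≤ lo) {n m : ℝ} (hn : 0 < n) (hm : 0 < m)
    (a1 : lo * n ≤ D * m) (a2 : D * m ≤ hi * n) :
    a / D * n + b / D * m ≤ ent n m - 0.09 * min n m := by
  have hD := D_pos
  have hy : 0 < m / n := by positivity
  have p1 := ptOK_sound h₁ hy
  have p2 := ptOK_sound h₂ hy
  have b1 : (lo : ℝ) / D ≤ m / n := by rw [div_le_div_iff₀ hD hn]; linarith
  have b2 : m / n ≤ (hi : ℝ) / D := by rw [div_le_div_iff₀ hn hD]; linarith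
  set y := m / n with hyd
  have key : (a : ℝ) / D + b / D * y + 0.09 * min 1 y
      ≤ Real.log (1 + y) + y * Real.log (2 * (1 + y) / y) := by
    rcases hs with h | h
    · have c1 : (hi : ℝ) / D ≤ 1 := by rw [div_le_one hD]; exact_mod_cast h
      rw [min_eq_right (by linarith)] at p1 p2 ⊢
      have := affine_le (α := (a : ℝ) / D) (β := b / D + 0.09 - Real.log (2 * (1 + y) / y))
        (c := Real.log (1 + y)) (by linarith) (by linarith) b1 b2
      linarith
    · have c1 : 1 ≤ (lo : ℝ) / D := by rw [one_le_div hD]; exact_mod_cast h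
      rw [min_eq_left (by linarith)] at p1 p2 ⊢
      have := affine_le (α := (a : ℝ) / D + 0.09) (β := b / D - Real.log (2 * (1 + y) / y))
        (c := Real.log (1 + y)) (by linarith) (by linarith) b1 b2
      linarith
  have e1 : (n + m) / n = 1 + y := by rw [hyd]; field_simp
  have e2 : 2 * (n + m) / m = 2 * (1 + y) / y := by rw [hyd]; field_simp
  have e3 : min n m = n * min 1 y := by
    rw [mul_min_of_nonneg _ _ hn.le, hyd]; congr 1 <;> field_simp
  have e4 : m = n * y := by rw [hyd]; field_simp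
  unfold ent
  rw [e1, e2, e3]
  have := mul_le_mul_of_nonneg_left key hn.le
  nth_rewrite 1 [e4]
  nth_rewrite 1 [e4]
  nlinarith

lemma log_factorial_le {n : ℕ} (hn : 0 < n) :
    Real.log n.factorial ≤ n * Real.log n - n + Real.log n / 2 + 1 := by
  obtain ⟨k, rfl⟩ : ∃ k, n = k + 1 := ⟨n - 1, by omega⟩
  have h1 := Stirling.log_stirlingSeq'_antitone (Nat.zero_le k)
  simp only [Function.comp, Nat.succ_eq_add_one, zero_add, Stirling.stirlingSeq_one] at h1
  rw [Stirling.log_stirlingSeq_formula, Real.log_div (by positivity) (by positivity), Real.log_exp,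
    Real.log_div (by positivity) (by positivity), Real.log_exp, Real.log_sqrt (by norm_num),
    Real.log_mul (by norm_num) (by positivity)] at h1
  linarith

lemma exp_ent_le {n m : ℕ} (hn : 0 < n) (hm : 0 < m) :
    Real.exp (ent n m) ≤ Real.exp 2 * min (n : ℝ) m * (2 ^ m * (n + m).choose n) := by
  have n0 : (1 : ℝ) ≤ n := by exact_mod_cast hn
  have m0 : (1 : ℝ) ≤ m := by exact_mod_cast hm
  have c0 : (0 : ℝ) < (n + m).choose n := by exact_mod_cast Nat.choose_pos (by omega)
  have mn : (1 : ℝ) ≤ min (n : ℝ) m := le_min n0 m0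
  rw [← Real.le_log_iff_exp_le (by positivity), Real.log_mul (by positivity) (by positivity),
    Real.log_mul (by positivity) (by positivity), Real.log_mul (by positivity) (by positivity),
    Real.log_exp, Real.log_pow]
  have h1 : ((n + m).choose n : ℝ) * n.factorial * m.factorial = (n + m).factorial := by
    have := Nat.add_choose_mul_factorial_mul_factorial m n
    rw [add_comm m n] at this
    have h2 : (n + m).choose n * n.factorial * m.factorial = (n + m).factorial := by
      rw [← this]; ring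
    exact_mod_cast h2
  have h2 := congrArg Real.log h1
  rw [Real.log_mul (by positivity) (by positivity), Real.log_mul (by positivity) (by positivity)]
    at h2
  have h3 := log_factorial_le hn
  have h4 := log_factorial_le hm
  have h5 := Stirling.le_log_factorial_stirling (n := n + m) (by omega)
  have h6 : 0 ≤ Real.log (2 * Real.pi) := Real.log_nonneg (by linarith [Real.pi_gt_three])
  have h7 : Real.log n + Real.log m ≤ Real.log (n + m) + Real.log (min (n : ℝ) m) := by
    rcases le_total (n : ℝ) m with h | h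
    · rw [min_eq_left h]
      have := Real.log_le_log (by linarith) (show (m : ℝ) ≤ n + m by linarith)
      linarith
    · rw [min_eq_right h]
      have := Real.log_le_log (by linarith) (show (n : ℝ) ≤ n + m by linarith)
      linarith
  have h8 : 0 ≤ Real.log (min (n : ℝ) m) := Real.log_nonneg mn
  unfold ent
  rw [Real.log_div (by positivity) (by positivity), Real.log_div (by positivity) (by positivity),
    Real.log_mul (by positivity) (by positivity)]
  push_cast at h5
  linarith

end Pool.Agent.Work.MP_e10cd8_co
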