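import Pool.Agent.Work.MP_e10cd8_co.ES

/-!
An explicit second-moment bound, used for very unbalanced pairs of targets.
-/

namespace Pool.Agent.Work.MP_e10cd8_co

open Finset
open scoped Classical

variable {V : Type} {ρ σ : ℕ}

lemma Sys.es' (S : Sys V ρ σ) (hρ : 0 < ρ) (hσ : 0 < σ) {α β : ℝ} (hα : 1 ≤ α) (hβ : 1 ≤ β)
    (h : ρ / α + σ / β ≤ 1) (k t : ℕ) (X : Finset V) (hX : 2 * (α ^ k * β ^ t) ≤ X.card + 1) :
    S.A k X ∨ S.B t X := by
  rcases k with _ | k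
  · exact Or.inl (S.A_zero _)
  rcases t with _ | t
  · exact Or.inr (S.B_zero _)
  refine S.es hρ hσ hα hβ h _ k t rfl X (le_trans ?_ hX)
  gcongr <;> omega

lemma Sys.explicit (S : Sys V ρ σ) (hρ : 0 < ρ) (hσ : 0 < σ) {a b μ B p e g τ C : ℝ}
    (ha : 0 ≤ a) (hb : 0 ≤ b) (hμ : 0 < μ) (hμ1 : μ ≤ 1) (hB : 1 ≤ B) (hp : 0 < p) (he : 0 < e)
    (hg : 0 < g) (hτ : 0 < τ)
    (h1 : ρ * Real.exp (-(2 * a)) + σ * μ ≤ p * (1 - 2 * τ))
    (h2 : ρ * Real.exp (-(2 * a)) + σ / B ≤ 1)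
    (h3 : ρ * (p + e) + σ * Real.exp (-b) + g ≤ 1) (h4 : B * Real.exp (-b) ^ 2 ≤ μ)
    (h5 : 1 ≤ C * g) (h6 : 2 ≤ C ^ 2 * e ^ 2 * τ) (k : ℕ) :
    ∀ (t : ℕ) (X : Finset V), C * Real.exp (a * k + b * t) ≤ X.card → S.A k X ∨ S.B t X := by
  have hC : 0 < C := by
    by_contra x
    push Not at x
    nlinarith
  intro t
  induction t with
  | zero => exact fun X _ => Or.inr (S.B_zero _)
  | succ t ih =>
  intro X hX
  by_cases hd : ∃ u ∈ X, ∃ j, Real.exp (-b) * X.card < (S.pt (Sum.inr j) u X).card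
  · obtain ⟨u, hu, j, hj⟩ := hd
    have : C * Real.exp (a * k + b * t) ≤ (S.pt (Sum.inr j) u X).card := by
      refine le_trans ?_ hj.le
      refine le_trans (le_of_eq ?_) (mul_le_mul_of_nonneg_left hX (Real.exp_pos _).le)
      rw [mul_left_comm, ← Real.exp_add]; congr 2; push_cast; ring
    rcases ih _ this with h | h
    · exact Or.inl (S.A_mono (S.pt_subset _ _ _) h)
    · exact Or.inr (S.B_step hu h)
  push Not at hd
  have hE : 1 ≤ Real.exp (a * k + b * (t + 1 : ℕ)) := Real.one_le_exp (by positivity)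
  have hXC : C ≤ X.card := by nlinarith
  have hX0 : (0 : ℝ) < X.card := by linarith
  obtain ⟨i, hi⟩ := S.exists_dense hρ (p := p) (e := e) (Subset.refl X) (by exact_mod_cast hX0) hd
    (by nlinarith)
  have h7 := mom_start (S.rel i) p e he.le 1 X X hi
  have hpL : Real.exp (-(-Real.log p)) = p := by rw [neg_neg, Real.exp_log hp]
  have hμL : Real.exp (-(-Real.log μ)) = μ := by rw [neg_neg, Real.exp_log hμ]
  have hm : 0 ≤ -Real.log μ := neg_nonneg.2 (Real.log_nonpos hμ.le hμ1)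
  have := S.book_ind i (L := -Real.log p) (s := 1) (a := 2 * a) (m := -Real.log μ) (l₁ := 1)
    (l₂ := 1) (τ := τ) (T := 2 * B ^ (t + 1)) (n := 1) one_pos hm le_rfl one_pos le_rfl hτ
    (by positivity) ?_ k X (S.B (t + 1) X) ?_ _ k (t + 1) rfl le_rfl X X Subset.rfl ?_
  · rcases this with h | h | h
    · exact Or.inl (S.P_A Subset.rfl h)
    · exact Or.inr h
    · exact Or.inr h
  · have e1 : Real.exp (1 * -Real.log p - 1 * (2 * a)) = p⁻¹ * Real.exp (-(2 * a)) := by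
      rw [sub_eq_add_neg, Real.exp_add, one_mul, one_mul, Real.exp_neg, Real.exp_log hp]
    have e2 : Real.exp (1 * -Real.log p - -Real.log μ) = p⁻¹ * μ := by
      rw [sub_eq_add_neg, Real.exp_add, one_mul, Real.exp_neg, Real.exp_log hp, hμL]
    rw [e1, e2]
    have e3 := mul_le_mul_of_nonneg_left h1 (inv_pos.2 hp).le
    have e4 : p⁻¹ * (p * (1 - 2 * τ)) = 1 - 2 * τ := by field_simp
    simp only [Nat.cast_one, one_pow, inv_one, mul_one, sub_self, zero_mul, add_zero]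
    linarith
  · intro k' _ Y hY h
    rcases S.es' hρ hσ (α := Real.exp (2 * a)) (Real.one_le_exp (by positivity)) hB
      (by rw [div_eq_mul_inv, ← Real.exp_neg]; exact h2) k' (t + 1) Y
      (by rw [← Real.exp_nat_mul, mul_comm (k' : ℝ)]; linarith) with x | x
    · exact Or.inl x
    · exact Or.inr (S.B_mono hY x)
  · rw [hpL, Real.rpow_one, Real.rpow_one]
    have a1 : (X.card : ℝ) * (X.card * e ^ (1 + 1)) ≤ X.card * mom (S.rel i) p 1 X X :=
      mul_le_mul_of_nonneg_left h7 hX0.le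
    refine le_trans ?_ a1
    have a2 : (C * Real.exp (a * k + b * (t + 1 : ℕ))) ^ 2 ≤ (X.card : ℝ) ^ 2 := by gcongr
    have a3 : B * Real.exp (-Real.log μ) ≤ Real.exp b ^ 2 := by
      rw [Real.exp_neg, Real.exp_log hμ, ← div_eq_mul_inv, div_le_iff₀ hμ]
      have c1 := mul_le_mul_of_nonneg_left h4 (sq_nonneg (Real.exp b))
      have c2 : Real.exp b ^ 2 * (B * Real.exp (-b) ^ 2) = B := by
        rw [Real.exp_neg]; field_simp
      linarith
    have a4 : (B * Real.exp (-Real.log μ)) ^ (t + 1) ≤ (Real.exp b ^ 2) ^ (t + 1) := by gcongr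
    have a5 : τ⁻¹ * 2 ≤ C ^ 2 * e ^ 2 := by
      rw [inv_mul_le_iff₀ hτ]; linarith
    have a6 : τ⁻¹ * (2 * B ^ (t + 1))
        * Real.exp (1 * (2 * a) * k + -Real.log μ * (t + 1 : ℕ))
        = (τ⁻¹ * 2) * (Real.exp (2 * a * k) * (B * Real.exp (-Real.log μ)) ^ (t + 1)) := by
      rw [Real.exp_add, mul_pow, ← Real.exp_nat_mul, one_mul, mul_comm (-Real.log μ)]; ring
    have a7 : (C * Real.exp (a * k + b * (t + 1 : ℕ))) ^ 2 * e ^ 2
        = (C ^ 2 * e ^ 2) * (Real.exp (2 * a * k) * (Real.exp b ^ 2) ^ (t + 1)) := by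
      have : Real.exp (a * k + b * (t + 1 : ℕ)) ^ 2
          = Real.exp (2 * a * k) * (Real.exp b ^ 2) ^ (t + 1) := by
        rw [← pow_mul, ← Real.exp_nat_mul, ← Real.exp_nat_mul, ← Real.exp_add]
        congr 1; push_cast; ring
      rw [mul_pow, this]; ring
    have a8 := mul_le_mul_of_nonneg_right a2 (sq_nonneg e)
    rw [a6]
    calc _ ≤ (C ^ 2 * e ^ 2) * (Real.exp (2 * a * k) * (Real.exp b ^ 2) ^ (t + 1)) := by gcongr
      _ ≤ (X.card : ℝ) ^ 2 * e ^ 2 := by rw [← a7]; exact a8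
      _ = _ := by ring

end Pool.Agent.Work.MP_e10cd8_co
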