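import Pool.Agent.Work.MP_e10cd8_co.DigAll
import Pool.Agent.Work.MP_e10cd8_co.Inst
import Pool.Agent.Work.MP_e10cd8_co.Expl
import Pool.Agent.Work.MP_e10cd8_co.Ent

/-!
Independent sets against transitive tournaments: the three ranges of the ratio.
-/

namespace Pool.Agent.Work.MP_e10cd8_co

open Finset
open scoped Classical

lemma dig_pairs : ∃ C : ℝ, 1 ≤ C ∧ ∀ (V : Type) (r : V → V → Prop) (n m : ℕ) (q : ℕ × ℕ),
    Listed (decQ Dig.qn) 87 q → ∀ X : Finset V,
      C * Real.exp (q.1 / D * n + q.2 / D * m) ≤ X.card →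
        Clq (fun u v => ¬ r u v) n X ∨ Trn r m X := by
  obtain ⟨C, hC, h⟩ := two_sided (ρ₁ := 1) (σ₁ := 2) (ρ₂ := 2) (σ₂ := 1) one_pos two_pos
    (Q := Listed (decQ Dig.qn) 87) (top₁ := 1036800000) (top₂ := 980000000)
    (by unfold D; norm_num) Dig.cov0 (by rw [listed_swap]; exact Dig.cov1)
  exact ⟨C, hC, fun V r => h V (indSys r) (trnSys r) rfl rfl⟩

def midOK (i lo hi y₁ y₂ y₃ y₄ : ℕ) : Bool :=
  Nat.blt i 87 && ptOK (decQ Dig.qn i).1 (decQ Dig.qn i).2 lo y₁ y₂ &&
    ptOK (decQ Dig.qn i).1 (decQ Dig.qn i).2 hi y₃ y₄ && (Nat.ble hi D || Nat.ble D lo)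

lemma dig_mid : ∃ C : ℝ, 1 ≤ C ∧ ∀ (V : Type) (r : V → V → Prop) (n m : ℕ), 0 < n → 0 < m →
    (n : ℝ) ≤ 100 * m → (m : ℝ) ≤ 100 * n → ∀ X : Finset V,
      C * Real.exp (ent n m - 0.09 * min (n : ℝ) m) ≤ X.card →
        Clq (fun u v => ¬ r u v) n X ∨ Trn r m X := by
  obtain ⟨C, hC, h⟩ := dig_pairs
  refine ⟨C, hC, fun V r n m hn hm h1 h2 X hX => ?_⟩
  have cell : ∀ i lo hi y₁ y₂ y₃ y₄ : ℕ, midOK i lo hi y₁ y₂ y₃ y₄ = true →
      (lo : ℝ) * n ≤ D * m → (D : ℝ) * m ≤ hi * n → Clq (fun u v => ¬ r u v) n X ∨ Trn r m X := by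
    intro i lo hi y₁ y₂ y₃ y₄ hc a1 a2
    simp only [midOK, Bool.and_eq_true, Bool.or_eq_true, Nat.blt_eq, Nat.ble_eq] at hc
    obtain ⟨⟨⟨b1, b2⟩, b3⟩, b4⟩ := hc
    refine h V r n m _ ⟨i, b1, rfl⟩ X (le_trans ?_ hX)
    exact mul_le_mul_of_nonneg_left (Real.exp_le_exp.2
      (cell_le b2 b3 b4 (by exact_mod_cast hn) (by exact_mod_cast hm) a1 a2)) (by linarith)
  have hD : (D : ℝ) = 1008000000 := by unfold D; norm_num
  have h1' : (10080000 : ℝ) * n ≤ D * m := by rw [hD]; linarith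
  have h2' : (D : ℝ) * m ≤ 100800000000 * n := by rw [hD]; linarith
  by_cases c0 : (D : ℝ) * m ≤ 43344000 * n
  · exact cell 4 10080000 43344000 10026933 5350730838 42434985 3912854948 (by decide +kernel)
      (by push_cast; linarith) (by push_cast; linarith)
  by_cases c1 : (D : ℝ) * m ≤ 141120000 * n
  · exact cell 10 43344000 141120000 42434985 3912854948 132073488 2812607605 (by decide +kernel)
      (by push_cast; linarith) (by push_cast; linarith)
  by_cases c2 : (D : ℝ) * m ≤ 462672000 * n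
  · exact cell 18 141120000 462672000 132073488 2812607605 380770279 1864397347 (by decide +kernel)
      (by push_cast; linarith) (by push_cast; linarith)
  by_cases c3 : (D : ℝ) * m ≤ 954576000 * n
  · exact cell 33 462672000 954576000 380770279 1864397347 671617044 1425201237 (by decide +kernel)
      (by push_cast; linarith) (by push_cast; linarith)
  by_cases c4 : (D : ℝ) * m ≤ 1008000000 * n
  · exact cell 39 954576000 1008000000 671617044 1425201237 698689358 1397381716 (by decide +kernel)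
      (by push_cast; linarith) (by push_cast; linarith)
  by_cases c5 : (D : ℝ) * m ≤ 1075536000 * n
  · exact cell 44 1008000000 1075536000 698689358 1397381716 731904066 1365226644 (by decide +kernel)
      (by push_cast; linarith) (by push_cast; linarith)
  by_cases c6 : (D : ℝ) * m ≤ 2578464000 * n
  · exact cell 51 1075536000 2578464000 731904066 1365226644 1279349177 1031302027 (by decide +kernel)
      (by push_cast; linarith) (by push_cast; linarith)
  by_cases c7 : (D : ℝ) * m ≤ 17748864000 * n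
  · exact cell 70 2578464000 17748864000 1279349177 1031302027 2946977328 754369515 (by decide +kernel)
      (by push_cast; linarith) (by push_cast; linarith)
  exact cell 81 17748864000 100800000000 2946977328 754369515 4652038480 708719291 (by decide +kernel)
      (by push_cast; linarith) (by push_cast; linarith)

lemma log_one_add_ge {ε : ℝ} (h0 : 0 < ε) (h1 : ε ≤ 1 / 100) : 0.99 * ε ≤ Real.log (1 + ε) := by
  have h := Real.one_sub_inv_le_log_of_pos (x := 1 + ε) (by positivity)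
  refine le_trans ?_ h
  have : (1 + ε)⁻¹ ≤ 1 - 0.99 * ε := by
    rw [inv_eq_one_div, div_le_iff₀ (by positivity)]; nlinarith
  linarith

lemma exp_neg_le_inv {x : ℝ} (h : 0 ≤ x) : Real.exp (-x) ≤ 1 / (1 + x) := by
  rw [Real.exp_neg, ← one_div]
  exact one_div_le_one_div_of_le (by positivity) (by linarith [Real.add_one_le_exp x])

lemma dig_ext₁ (V : Type) (r : V → V → Prop) (n m : ℕ) (hm : 0 < m) (h : 100 * (m : ℝ) ≤ n)
    (X : Finset V)
    (hX : 200 * ((n : ℝ) / m) ^ 2 * Real.exp (ent n m - 0.09 * min (n : ℝ) m) ≤ X.card) :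
    Clq (fun u v => ¬ r u v) n X ∨ Trn r m X := by
  have m0 : (0 : ℝ) < m := by exact_mod_cast hm
  have n0 : (0 : ℝ) < n := by linarith
  set ε : ℝ := m / n with hε
  have ε0 : 0 < ε := by positivity
  have ε1 : ε ≤ 1 / 100 := by rw [hε, div_le_iff₀ n0]; linarith
  have eb : Real.exp (-Real.log (2 / ε)) = ε / 2 := by
    rw [Real.exp_neg, Real.exp_log (by positivity), inv_div]
  have ea : Real.exp (-(2 * (0.87 * ε))) ≤ 1 - 1.71 * ε := by
    refine (exp_neg_le_inv (by positivity)).trans ?_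
    rw [div_le_iff₀ (by positivity)]; nlinarith
  refine (indSys r).explicit one_pos two_pos (a := 0.87 * ε) (b := Real.log (2 / ε)) (μ := ε / 3)
    (B := 2 / (1.71 * ε)) (p := 1 - 1.02 * ε) (e := ε / 100) (g := ε / 100) (τ := ε / 100)
    (C := 200 / ε ^ 2) (by positivity)
    (Real.log_nonneg (by rw [le_div_iff₀ ε0]; linarith)) (by positivity) (by linarith)
    (by rw [le_div_iff₀ (by positivity)]; linarith) (by linarith) (by positivity) (by positivity)
    (by positivity) ?_ ?_ ?_ ?_ ?_ ?_ n m X (le_trans ?_ hX)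
  · push_cast; nlinarith
  · have : (2 : ℝ) / (2 / (1.71 * ε)) = 1.71 * ε := by field_simp
    push_cast; rw [this]; linarith
  · rw [eb]; push_cast; linarith
  · rw [eb]
    have : 2 / (1.71 * ε) * (ε / 2) ^ 2 = ε / 3.42 := by field_simp; norm_num
    rw [this]; exact div_le_div_of_nonneg_left ε0.le (by norm_num) (by norm_num)
  · have : 200 / ε ^ 2 * (ε / 100) = 2 / ε := by field_simp; norm_num
    rw [this, le_div_iff₀ ε0]; linarith
  · have : (200 / ε ^ 2) ^ 2 * (ε / 100) ^ 2 * (ε / 100) = 0.04 / ε := by field_simp; norm_num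
    rw [this, le_div_iff₀ ε0]; linarith
  · have e1 : 200 * ((n : ℝ) / m) ^ 2 = 200 / ε ^ 2 := by rw [hε]; field_simp
    rw [e1]
    refine mul_le_mul_of_nonneg_left (Real.exp_le_exp.2 ?_) (by positivity)
    rw [min_eq_right (by linarith)]
    unfold ent
    have e2 : ((n : ℝ) + m) / n = 1 + ε := by rw [hε]; field_simp
    have a1 := mul_le_mul_of_nonneg_left (log_one_add_ge ε0 ε1) n0.le
    have a2 : Real.log (2 / ε) ≤ Real.log (2 * (n + m) / m) := by
      refine Real.log_le_log (by positivity) ?_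
      rw [hε, div_div_eq_mul_div]; gcongr; linarith
    have a3 := mul_le_mul_of_nonneg_left a2 m0.le
    have e3 : ε * n = m := by rw [hε]; field_simp
    rw [e2]
    nlinarith

lemma dig_ext₂ (V : Type) (r : V → V → Prop) (n m : ℕ) (hn : 0 < n) (h : 100 * (n : ℝ) ≤ m)
    (X : Finset V)
    (hX : 200 * ((m : ℝ) / n) ^ 2 * Real.exp (ent n m - 0.09 * min (n : ℝ) m) ≤ X.card) :
    Clq (fun u v => ¬ r u v) n X ∨ Trn r m X := by
  have n0 : (0 : ℝ) < n := by exact_mod_cast hn
  have m0 : (0 : ℝ) < m := by linarith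
  set ε : ℝ := n / m with hε
  have ε0 : 0 < ε := by positivity
  have ε1 : ε ≤ 1 / 100 := by rw [hε, div_le_iff₀ m0]; linarith
  have l2 : 0 < Real.log 2 := Real.log_pos (by norm_num)
  have eb : Real.exp (-Real.log (1 / ε)) = ε := by
    rw [Real.exp_neg, Real.exp_log (by positivity), inv_div, div_one]
  have ea : Real.exp (-(2 * (Real.log 2 + 0.65 * ε))) ≤ (1 - 1.25 * ε) / 4 := by
    have e1 : Real.exp (-(2 * (Real.log 2 + 0.65 * ε))) = Real.exp (-(1.3 * ε)) / 4 := by
      have : -(2 * (Real.log 2 + 0.65 * ε)) = -(1.3 * ε) - Real.log 2 - Real.log 2 := by ring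
      rw [this, Real.exp_sub, Real.exp_sub, Real.exp_log (by norm_num)]; ring
    rw [e1]
    refine div_le_div_of_nonneg_right ((exp_neg_le_inv (by positivity)).trans ?_) (by norm_num)
    rw [div_le_iff₀ (by positivity)]; nlinarith
  refine Or.symm ((trnSys r).explicit two_pos one_pos (a := Real.log 2 + 0.65 * ε)
    (b := Real.log (1 / ε)) (μ := ε / 10)
    (B := 2) (p := (1 - 1.03 * ε) / 2) (e := ε / 100) (g := ε / 100) (τ := ε / 100)
    (C := 200 / ε ^ 2) (by positivity)
    (Real.log_nonneg (by rw [le_div_iff₀ ε0]; linarith)) (by positivity) (by linarith)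
    (by norm_num) (by linarith) (by positivity) (by positivity)
    (by positivity) ?_ ?_ ?_ ?_ ?_ ?_ m n X (le_trans ?_ hX))
  · push_cast; nlinarith
  · push_cast; linarith
  · rw [eb]; push_cast; linarith
  · rw [eb]; nlinarith
  · have : 200 / ε ^ 2 * (ε / 100) = 2 / ε := by field_simp; norm_num
    rw [this, le_div_iff₀ ε0]; linarith
  · have : (200 / ε ^ 2) ^ 2 * (ε / 100) ^ 2 * (ε / 100) = 0.04 / ε := by field_simp; norm_num
    rw [this, le_div_iff₀ ε0]; linarith
  · have e1 : 200 * ((m : ℝ) / n) ^ 2 = 200 / ε ^ 2 := by rw [hε]; field_simp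
    rw [e1]
    refine mul_le_mul_of_nonneg_left (Real.exp_le_exp.2 ?_) (by positivity)
    rw [min_eq_left (by linarith)]
    unfold ent
    have e2 : 2 * ((n : ℝ) + m) / m = 2 * (1 + ε) := by rw [hε]; field_simp; ring
    have a1 := mul_le_mul_of_nonneg_left (log_one_add_ge ε0 ε1) m0.le
    have a2 : Real.log (1 / ε) ≤ Real.log ((n + m) / n) := by
      refine Real.log_le_log (by positivity) ?_
      rw [hε, one_div_div]; gcongr; linarith
    have a3 := mul_le_mul_of_nonneg_left a2 n0.le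
    have e3 : ε * m = n := by rw [hε]; field_simp
    rw [e2, Real.log_mul (by norm_num) (by positivity)]
    nlinarith

theorem dig_all : ∃ C : ℝ, 1 ≤ C ∧ ∀ (V : Type) (r : V → V → Prop) (n m : ℕ), 0 < n → 0 < m →
    ∀ X : Finset V, C * ((n : ℝ) + m) ^ 2 * Real.exp (-(0.09 * min (n : ℝ) m))
      * (2 ^ m * (n + m).choose n) ≤ X.card → Clq (fun u v => ¬ r u v) n X ∨ Trn r m X := by
  obtain ⟨C, hC, h⟩ := dig_mid
  have e2 : 1 ≤ Real.exp 2 := Real.one_le_exp (by norm_num)
  refine ⟨200 * C * Real.exp 2, by nlinarith, fun V r n m hn hm X hX => ?_⟩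
  have n1 : (1 : ℝ) ≤ n := by exact_mod_cast hn
  have m1 : (1 : ℝ) ≤ m := by exact_mod_cast hm
  have key : ∀ K : ℝ, 0 ≤ K → K * min (n : ℝ) m ≤ 200 * C * ((n : ℝ) + m) ^ 2 →
      K * Real.exp (ent n m - 0.09 * min (n : ℝ) m) ≤ X.card := by
    intro K hK hK'
    refine le_trans ?_ hX
    rw [sub_eq_add_neg, Real.exp_add]
    have a1 := exp_ent_le hn hm
    set E := Real.exp (-(0.09 * min (n : ℝ) m))
    set P : ℝ := 2 ^ m * (n + m).choose n
    have E0 : 0 ≤ E := (Real.exp_pos _).le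
    have P0 : 0 ≤ P := by positivity
    calc K * (Real.exp (ent n m) * E) ≤ K * ((Real.exp 2 * min (n : ℝ) m * P) * E) := by gcongr
      _ = (K * min (n : ℝ) m) * (Real.exp 2 * E * P) := by ring
      _ ≤ (200 * C * ((n : ℝ) + m) ^ 2) * (Real.exp 2 * E * P) := by gcongr
      _ = _ := by ring
  have hs : 1 * ((n : ℝ) + m) ^ 2 ≤ C * ((n : ℝ) + m) ^ 2 := by gcongr
  by_cases c1 : 100 * (m : ℝ) ≤ n
  · refine dig_ext₁ V r n m hm c1 X (key _ (by positivity) ?_)
    rw [min_eq_right (by linarith)]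
    have : 200 * ((n : ℝ) / m) ^ 2 * m = 200 * (n ^ 2 / m) := by field_simp
    have h2 : (n : ℝ) ^ 2 / m ≤ n ^ 2 := div_le_self (by positivity) m1
    rw [this]; nlinarith
  by_cases c2 : 100 * (n : ℝ) ≤ m
  · refine dig_ext₂ V r n m hn c2 X (key _ (by positivity) ?_)
    rw [min_eq_left (by linarith)]
    have : 200 * ((m : ℝ) / n) ^ 2 * n = 200 * (m ^ 2 / n) := by field_simp
    have h2 : (m : ℝ) ^ 2 / n ≤ m ^ 2 := div_le_self (by positivity) n1
    rw [this]; nlinarith
  refine h V r n m hn hm (by linarith) (by linarith) X (key _ (by linarith) ?_)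
  have : min (n : ℝ) m ≤ 200 * ((n : ℝ) + m) ^ 2 := (min_le_left _ _).trans (by nlinarith)
  have := mul_le_mul_of_nonneg_left this (show 0 ≤ C by linarith)
  linarith

end Pool.Agent.Work.MP_e10cd8_co
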