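import Pool.Agent.Work.MP_e10cd8_co.Decode

namespace Pool.Agent.Work.MP_e10cd8_co.Dig

def qn : ℕ := 0x29dc2b83011f73ff58002a00fa2f00fb822b60002a3ace7700df458438002a6be21700cf4bcb78002a99f39700c40c85b8002b427a1700a32240b8002b64f6bb009e529420002b9ef4cb009807ad80002bde0e7700926d9498002c1fc3a7008d7df838002c6cb57700887b8f58002d122a1b007ffa8320002d9ae763007a2c36f0002e397a4f00746ff008002ebbc9370070551098002ef7cdab006ea85e80003101680b006314b73000326926ff005c73cd080033ab3f1f00576108a800356b2fe3005137c75000356c201f005134a6880036ae06bf004d769cb800382e024b00496e66a00039299bab0046f96730003a16307f0044dac908003b24b00f00429db218003c3adb5700407a1e68003d4f1b57003e7e4e68003e5a31a3003cb1cfb0003f6f2363003af039f000407aa8db003955eae000418ebf6b0037c4a06800429ddc6f00364e29200043ada1170034e8922800454242cf0032ec3d58004542a9ef0032ebbc700045cf689f003240ede00046659f6f00318fca38004708ca470030d4abe00047b699c7003012afb80047f82c2f002fcb69a00047f82c2f002fcb69a00053d58c40002397415400549a6ab00022cf3c8400553310d0002237cf040055cd31d80021a29c9c005667378800211136fc0057071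93800207e1fac0057a7ae98001fee3dac0058494d98001f614eac0058dfffb8001ee1846c00594f53b8001e85c86c00594fe828001e8551ac005afff1b8001d2d6ad4005c3ddc70001c3bccec005d8e0708001b486a80005ef3a9b8001a525ce000607e7bf0001950f07c00621f899000185008dc0063e5c6b800174893780065de5e8000163613d800680cf68000151a4fd8006a8706d00013ef08a8006d72cc800012a90150006f8a08080011d2e98000741e883000101ebdec0079be3ab0000e3b00ec007a0aef68000e23fde80080051a10000c716cac00854562c8000b240ac4008ba99dc80009c929440099052ff000076f5114009ca787e80006ed119000a3d38b70000609672400a9e7c5f8000561548800b13639e80004b53fa000c1d60a30000371ce8400c7213be00003207ebc00ce6f3e880002bf412800d79a65a0000257fad400e2fed3180001eefd0800f71bc7e800015ed15001043bef2000011b9d54011280a4e00000e12bd40122755c600000b0279401531ecdd800004c7ebc015fb93ab000003f96e0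

end Pool.Agent.Work.MP_e10cd8_co.Dig
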