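import Pool.Agent.Work.MP_e10cd8_co.Ram0
import Pool.Agent.Work.MP_e10cd8_co.Ram1
import Pool.Agent.Work.MP_e10cd8_co.Ram2
import Pool.Agent.Work.MP_e10cd8_co.Ram3
import Pool.Agent.Work.MP_e10cd8_co.Ram4
import Pool.Agent.Work.MP_e10cd8_co.Ram5
import Pool.Agent.Work.MP_e10cd8_co.Ram6
import Pool.Agent.Work.MP_e10cd8_co.Ram7
import Pool.Agent.Work.MP_e10cd8_co.Ram8
import Pool.Agent.Work.MP_e10cd8_co.Ram9
import Pool.Agent.Work.MP_e10cd8_co.Ram10

namespace Pool.Agent.Work.MP_e10cd8_co.Ram

theorem cov0 : Covered 1 1 (Listed (decQ qn) 102) 1008000000 := by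
  have h := covered_zero 1 1 (Listed (decQ qn) 102)
  have h := h.step c0_0
  have h := h.step c0_1
  have h := h.step c0_2
  have h := h.step c0_3
  have h := h.step c0_4
  have h := h.step c0_5
  have h := h.step c0_6
  have h := h.step c0_7
  have h := h.step c0_8
  have h := h.step c0_9
  have h := h.step c0_10
  have h := h.step c0_11
  have h := h.step c0_12
  have h := h.step c0_13
  have h := h.step c0_14
  have h := h.step c0_15
  have h := h.step c0_16
  have h := h.step c0_17
  have h := h.step c0_18
  have h := h.step c0_19
  have h := h.step c0_20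
  have h := h.step c0_21
  have h := h.step c0_22
  have h := h.step c0_23
  have h := h.step c0_24
  have h := h.step c0_25
  have h := h.step c0_26
  have h := h.step c0_27
  have h := h.step c0_28
  have h := h.step c0_29
  have h := h.step c0_30
  have h := h.step c0_31
  have h := h.step c0_32
  have h := h.step c0_33
  have h := h.step c0_34
  have h := h.step c0_35
  have h := h.step c0_36
  have h := h.step c0_37
  have h := h.step c0_38
  have h := h.step c0_39
  have h := h.step c0_40
  have h := h.step c0_41
  have h := h.step c0_42
  have h := h.step c0_43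
  have h := h.step c0_44
  have h := h.step c0_45
  have h := h.step c0_46
  have h := h.step c0_47
  have h := h.step c0_48
  have h := h.step c0_49
  exact h.step c0_50

end Pool.Agent.Work.MP_e10cd8_co.Ram
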