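import Pool.Agent.Work.MP_e10cd8_co.Decode

namespace Pool.Agent.Work.MP_e10cd8_co.Ram

def qn : ℕ := 0x3e42c1013749684800004c63e501297d0b200000aff9c500f8dcdcc00000e101a100e8e6f87800011b37d100dab0bdc000015d8b0900cdbc7cd00001ee612900b987c21000025559bd00ae5b73c80002bc100900a53d16200003216f15009d9fa38800038df56d00968ee4780004a1e3dd0088603758000559d6ed008090c3f800061408e50079d4bc680006cdd0390073fa85700007a5ad65006df4a2c80008d15fed0066d136780009c6935d0061b8f3d8000ab61ed9005d4f0620000b99c32d00598a7088000c7d28c500561fd618000d8e865d00525d4808000dfd0c1d0050ecdf88000eeef11d004df8f3e8000fc77911004b7c18c000109af7190049309e3800116522cd00471c970000124daaed0044d742b00013604535004258a65000145589690040437638001540efc1003e630dd80016238421003caf52f800170465a9003b1673180017dcf0f90039a118f80018b2a195003842c94800198463150036fb0af0001a546c3b0035c48aa8001b205ba70034a134a0001be58fb70033931060001cabb0cf00328e5e18001ddd674500310b63b0001dddac0500310b0dc0001e378c1100309d7328001ea78ba10030181e58001f12f41d002f9b39b0001f868d8d002f17dcc80020066805002e89cd9800208643e5002dfed3780020f5237d00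2d88e0280021783a3d002d0053200021f79a35002c7e59b0002c7e59b00021f79a35002d0053200021783a3d002d88e0280020f5237d002dfed37800208643e5002e89cd980020066805002f17dcc8001f868d8d002f9b39b0001f12f41d0030181e58001ea78ba100309d7328001e378c1100310b0dc0001dddac0500310b63b0001ddd674500328e5e18001cabb0cf0033931060001be58fb70034a134a0001b205ba70035c48aa8001a546c3b0036fb0af00019846315003842c9480018b2a1950039a118f80017dcf0f9003b16731800170465a9003caf52f80016238421003e630dd8001540efc100404376380014558969004258a65000136045350044d742b000124daaed00471c970000116522cd0049309e3800109af719004b7c18c0000fc77911004df8f3e8000eeef11d0050ecdf88000dfd0c1d00525d4808000d8e865d00561fd618000c7d28c500598a7088000b99c32d005d4f0620000ab61ed90061b8f3d80009c6935d0066d136780008d15fed006df4a2c80007a5ad650073fa85700006cdd0390079d4bc6800061408e5008090c3f8000559d6ed00886037580004a1e3dd00968ee47800038df56d009d9fa3880003216f1500a53d16200002bc100900ae5b73c800025559bd00b987c2100001ee612900cdbc7cd000015d8b0900dab0bdc000011b37d100e8e6f8780000e101a100f8dcdcc00000aff9c501297d0b2000004c63e5013749684800003e42c1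

end Pool.Agent.Work.MP_e10cd8_co.Ram
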