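import Mathlib

/-!
Moment form of the book step: one vertex step, with no error term.
-/

namespace Pool.Agent.Work.MP_e10cd8_co

open Finset
open scoped Classical

/-- An abstract two-target system. Seen from a vertex `v`, every other vertex lies in one of
`ρ` spine classes or in one of `σ` side classes. -/
structure Sys (V : Type) (ρ σ : ℕ) where
  c : V → V → Fin ρ ⊕ Fin σ
  A : ℕ → Finset V → Prop
  B : ℕ → Finset V → Prop
  P : Fin ρ → ℕ → Finset V → Finset V → Prop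
  A_zero : ∀ X, A 0 X
  B_zero : ∀ X, B 0 X
  A_mono : ∀ {k X Y}, X ⊆ Y → A k X → A k Y
  B_mono : ∀ {k X Y}, X ⊆ Y → B k X → B k Y
  P_right : ∀ {i k X Y}, A k Y → P i k X Y
  P_A : ∀ {i k X Y}, X ⊆ Y → P i k X Y → A k Y
  P_mono : ∀ {i k X Y X' Y'}, X ⊆ X' → Y ⊆ Y' → P i k X Y → P i k X' Y'
  P_step : ∀ {i j k X Y v}, v ∈ X →
    P i k (X.filter fun u => u ≠ v ∧ c v u = Sum.inl j)
      (Y.filter fun u => u ≠ v ∧ c v u = Sum.inl i) → P i (k + 1) X Y
  B_step : ∀ {j t X v}, v ∈ X →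
    B t (X.filter fun u => u ≠ v ∧ c v u = Sum.inr j) → B (t + 1) X

variable {V : Type} {ρ σ : ℕ}

/-- The vertices of `X` other than `v` that lie in class `κ` as seen from `v`. -/
noncomputable def Sys.pt (S : Sys V ρ σ) (κ : Fin ρ ⊕ Fin σ) (v : V) (X : Finset V) : Finset V :=
  X.filter fun u => u ≠ v ∧ S.c v u = κ

lemma Sys.pt_subset (S : Sys V ρ σ) (κ : Fin ρ ⊕ Fin σ) (v : V) (X : Finset V) :
    S.pt κ v X ⊆ X := filter_subset _ _

lemma tangent_pow (n : ℕ) {z a : ℝ} (hz : 0 ≤ z) (ha : 0 ≤ a) :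
    (n + 1) * a ^ n * z ≤ z ^ (n + 1) + n * a ^ (n + 1) := by
  induction n with
  | zero => simp
  | succ n ih =>
    have h1 : 0 ≤ (z ^ (n + 1) - a ^ (n + 1)) * (z - a) := by
      rcases le_total a z with h | h
      · exact mul_nonneg (sub_nonneg.2 (pow_le_pow_left₀ ha h _)) (sub_nonneg.2 h)
      · exact mul_nonneg_of_nonpos_of_nonpos (sub_nonpos.2 (pow_le_pow_left₀ hz h _))
          (sub_nonpos.2 h)
    have h2 := mul_le_mul_of_nonneg_left ih ha
    push_cast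
    have e1 : z ^ (n + 1 + 1) = z ^ (n + 1) * z := pow_succ _ _
    have e2 : a ^ (n + 1 + 1) = a ^ (n + 1) * a := pow_succ _ _
    have e3 : a ^ (n + 1) = a ^ n * a := pow_succ _ _
    rw [e1, e2]
    have e4 : a * ((n + 1 : ℝ) * a ^ n * z) = (n + 1 : ℝ) * a ^ (n + 1) * z := by rw [e3]; ring
    linarith only [h1, h2, e4]

lemma young_pow (n : ℕ) {w l : ℝ} (z : ℝ) (hw : 0 ≤ w) (hl : 0 < l) :
    (n + 1) * (w ^ n * z) ≤ n * l * w ^ (n + 1) + (l ^ n)⁻¹ * (max z 0) ^ (n + 1) := by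
  have h := tangent_pow n (le_max_right z 0) (mul_nonneg hl.le hw)
  have hl' : 0 < l ^ n := pow_pos hl n
  have h1 : (n + 1 : ℝ) * (w ^ n * z) ≤ (n + 1) * (w ^ n * max z 0) := by
    have : 0 ≤ w ^ n := pow_nonneg hw n
    have h3 : w ^ n * z ≤ w ^ n * max z 0 := mul_le_mul_of_nonneg_left (le_max_left _ _) this
    exact mul_le_mul_of_nonneg_left h3 (by positivity)
  refine h1.trans ?_
  have h2 : (n + 1 : ℝ) * (w ^ n * max z 0)
      = (l ^ n)⁻¹ * ((n + 1) * (l * w) ^ n * max z 0) := by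
    rw [mul_pow]; field_simp
  rw [h2]
  have h3 : (n : ℝ) * l * w ^ (n + 1) + (l ^ n)⁻¹ * (max z 0) ^ (n + 1)
      = (l ^ n)⁻¹ * ((max z 0) ^ (n + 1) + n * (l * w) ^ (n + 1)) := by
    rw [mul_pow]; field_simp; ring
  rw [h3]
  exact mul_le_mul_of_nonneg_left h (inv_nonneg.2 hl'.le)

/-- Excess density of the neighbourhood of `u` in `Y` over `p`. -/
noncomputable def exc (r : V → V → Prop) (p : ℝ) (Y : Finset V) (u : V) : ℝ :=
  ((Y.filter (r u)).card : ℝ) / Y.card - p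

/-- The moment potential. -/
noncomputable def mom (r : V → V → Prop) (p : ℝ) (n : ℕ) (X Y : Finset V) : ℝ :=
  ∑ u ∈ X, (max (exc r p Y u) 0) ^ (n + 1)

lemma mom_nonneg (r : V → V → Prop) (p : ℝ) (n : ℕ) (X Y : Finset V) : 0 ≤ mom r p n X Y :=
  sum_nonneg fun _ _ => pow_nonneg (le_max_right _ _) _

lemma exc_le_one (r : V → V → Prop) {p : ℝ} (hp : 0 ≤ p) (Y : Finset V) (u : V) :
    exc r p Y u ≤ 1 := by
  unfold exc
  have : ((Y.filter (r u)).card : ℝ) / Y.card ≤ 1 := by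
    apply div_le_one_of_le₀ _ (by positivity)
    exact_mod_cast card_filter_le _ _
  linarith only [hp, this]

lemma exists_vertex (r : V → V → Prop) {p : ℝ} (hp : 0 ≤ p) {n : ℕ} (hn : 1 ≤ n)
    (X Y : Finset V) (hS : 0 < mom r p n X Y) :
    ∃ v ∈ X, p * Y.card < (Y.filter (r v)).card ∧
      mom r p n X Y ≤ ∑ u ∈ X, (max (exc r p Y u) 0) ^ n * exc r p (Y.filter (r v)) u := by
  set S := mom r p n X Y with hSdef
  set w : V → ℝ := fun u => (max (exc r p Y u) 0) ^ n with hw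
  have hw0 : ∀ u, 0 ≤ w u := fun u => pow_nonneg (le_max_right _ _) _
  have hwq : ∀ u, w u * exc r p Y u = (max (exc r p Y u) 0) ^ (n + 1) := by
    intro u
    rcases le_total (exc r p Y u) 0 with h | h
    · simp only [hw, max_eq_right h]
      rw [zero_pow (by omega), zero_pow (by omega), zero_mul]
    · simp only [hw, max_eq_left h, pow_succ]
  have hY : 0 < (Y.card : ℝ) := by
    rcases Nat.eq_zero_or_pos Y.card with h | h
    · exfalso
      have : S = 0 := by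
        rw [hSdef]; unfold mom
        refine sum_eq_zero fun u _ => ?_
        have : exc r p Y u ≤ 0 := by unfold exc; rw [h]; simp [hp]
        rw [max_eq_right this, zero_pow (by omega)]
      linarith only [hS, this]
    · exact_mod_cast h
  set W : ℝ := ∑ u ∈ X, w u with hW
  set f : V → ℝ := fun y => ∑ u ∈ X, if r u y then w u else 0 with hf
  set deg : V → ℝ := fun v => ((Y.filter (r v)).card : ℝ) with hdeg
  have hdeg' : ∀ v, deg v = ∑ y ∈ Y, if r v y then (1 : ℝ) else 0 := by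
    intro v; simp only [hdeg, sum_boole]
  have h1 : ∑ y ∈ Y, f y = ∑ u ∈ X, w u * deg u := by
    simp only [hf]; rw [sum_comm]
    refine sum_congr rfl fun u _ => ?_
    rw [hdeg', mul_sum]
    refine sum_congr rfl fun y _ => ?_
    split_ifs <;> simp
  have h2 : ∑ u ∈ X, w u * deg u = Y.card * (S + p * W) := by
    rw [hSdef, hW]; unfold mom
    rw [mul_sum, ← sum_add_distrib, mul_sum]
    refine sum_congr rfl fun u _ => ?_
    rw [← hwq]; unfold exc; simp only [hdeg]; field_simp; ring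
  have h3 : ∑ y ∈ Y, f y ^ 2
      = ∑ v ∈ X, w v * ∑ u ∈ X, w u * (((Y.filter (r v)).filter (r u)).card : ℝ) := by
    have : ∀ v u, (((Y.filter (r v)).filter (r u)).card : ℝ)
        = ∑ y ∈ Y, if r v y ∧ r u y then (1 : ℝ) else 0 := by
      intro v u; rw [filter_filter, sum_boole]
    have e : ∀ y, f y ^ 2
        = ∑ v ∈ X, ∑ u ∈ X, w v * (w u * if r v y ∧ r u y then (1 : ℝ) else 0) := by
      intro y
      simp only [hf]
      rw [sq, sum_mul_sum]
      refine sum_congr rfl fun v _ => sum_congr rfl fun u _ => ?_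
      by_cases a : r v y <;> by_cases b : r u y <;> simp [a, b]
    simp only [this, e, mul_sum]
    rw [sum_comm]
    refine sum_congr rfl fun v _ => ?_
    rw [sum_comm]
  have hcs : (∑ y ∈ Y, f y) ^ 2 ≤ Y.card * ∑ y ∈ Y, f y ^ 2 := sq_sum_le_card_mul_sum_sq
  have h4 : (S + p * W) * ∑ u ∈ X, w u * deg u ≤ ∑ y ∈ Y, f y ^ 2 := by
    rw [h1, h2] at hcs; rw [h2]
    have : (Y.card : ℝ) * ((S + p * W) * (Y.card * (S + p * W)))
        ≤ Y.card * ∑ y ∈ Y, f y ^ 2 := by linarith only [hcs]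
    exact le_of_mul_le_mul_left this hY
  by_contra hcon
  push Not at hcon
  obtain ⟨v0, hv0, hv0'⟩ : ∃ v ∈ X, 0 < w v := by
    by_contra h
    push Not at h
    have : S ≤ 0 := by
      rw [hSdef]; unfold mom
      refine sum_nonpos fun u hu => ?_
      rw [← hwq, le_antisymm (h u hu) (hw0 u), zero_mul]
    linarith only [hS, this]
  have key : ∀ v ∈ X, 0 < w v →
      ∑ u ∈ X, w u * (((Y.filter (r v)).filter (r u)).card : ℝ) < (S + p * W) * deg v := by
    intro v hv hwv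
    have hq : 0 < exc r p Y v := by
      by_contra h
      push Not at h
      simp only [hw, max_eq_right h] at hwv
      rw [zero_pow (by omega)] at hwv
      exact lt_irrefl _ hwv
    have hd : p * Y.card < deg v := by
      unfold exc at hq
      have : p < deg v / Y.card := by simp only [hdeg]; linarith only [hq]
      rwa [lt_div_iff₀ hY] at this
    have hd0 : 0 < deg v := lt_of_le_of_lt (by positivity) hd
    have h5 := hcon v hv hd
    have h6 : ∑ u ∈ X, w u * (((Y.filter (r v)).filter (r u)).card : ℝ)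
        = (∑ u ∈ X, w u * exc r p (Y.filter (r v)) u + p * W) * deg v := by
      rw [hW, mul_sum, ← sum_add_distrib, sum_mul]
      refine sum_congr rfl fun u _ => ?_
      unfold exc
      have : ((Y.filter (r v)).card : ℝ) = deg v := rfl
      rw [this]; field_simp; ring
    rw [h6]
    exact mul_lt_mul_of_pos_right (by linarith only [h5]) hd0
  have h7 : ∑ v ∈ X, w v * ∑ u ∈ X, w u * (((Y.filter (r v)).filter (r u)).card : ℝ)
      < ∑ v ∈ X, w v * ((S + p * W) * deg v) := by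
    refine sum_lt_sum (fun v hv => ?_) ⟨v0, hv0, mul_lt_mul_of_pos_left (key v0 hv0 hv0') hv0'⟩
    rcases (hw0 v).eq_or_lt with h | h
    · rw [← h]; simp
    · exact (mul_lt_mul_of_pos_left (key v hv h) h).le
  have h8 : ∑ v ∈ X, w v * ((S + p * W) * deg v) = (S + p * W) * ∑ u ∈ X, w u * deg u := by
    rw [mul_sum X (fun u => w u * deg u)]; exact sum_congr rfl fun u _ => by ring
  linarith only [h3, h4, h7, h8]

lemma Sys.sum_split (S : Sys V ρ σ) (g : V → ℝ) {v : V} {X : Finset V} (hv : v ∈ X) :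
    ∑ u ∈ X, g u = g v + (∑ j : Fin ρ, ∑ u ∈ S.pt (Sum.inl j) v X, g u
      + ∑ j : Fin σ, ∑ u ∈ S.pt (Sum.inr j) v X, g u) := by
  rw [← add_sum_erase X g hv, ← Fintype.sum_sum_type (fun κ => ∑ u ∈ S.pt κ v X, g u)]
  congr 1
  rw [← sum_fiberwise_of_maps_to (s := X.erase v) (t := univ) (g := S.c v) (fun _ _ => mem_univ _)]
  refine sum_congr rfl fun κ _ => sum_congr ?_ fun _ _ => rfl
  ext u; simp only [Sys.pt, mem_filter, mem_erase]; tauto

/-- The relation used for the pages of the book. -/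
def Sys.rel (S : Sys V ρ σ) (i : Fin ρ) (u y : V) : Prop := y ≠ u ∧ S.c u y = Sum.inl i

lemma Sys.filter_rel (S : Sys V ρ σ) (i : Fin ρ) (v : V) (Y : Finset V) :
    Y.filter (S.rel i v) = S.pt (Sum.inl i) v Y := by
  ext u; simp only [Sys.pt, Sys.rel, mem_filter]

/-- One step of the book process. -/
lemma Sys.step (S : Sys V ρ σ) (i : Fin ρ) {p x y μ l₁ l₂ τ : ℝ} {n : ℕ} (hp : 0 ≤ p)
    (hn : 1 ≤ n) (hl₁ : 0 < l₁) (hl : l₁ ≤ l₂) (hτ : 0 < τ)
    (hc : n * (l₁ + (l₂ - l₁) * (σ * μ)) + (ρ * x * (l₁ ^ n)⁻¹ + σ * y * (l₂ ^ n)⁻¹)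
      ≤ (n + 1) * (1 - τ))
    (X Y : Finset V) (hS : 1 < τ * mom (S.rel i) p n X Y) :
    ∃ v ∈ X, p * Y.card < (S.pt (Sum.inl i) v Y).card ∧
      ((∃ j, x * mom (S.rel i) p n X Y
          ≤ mom (S.rel i) p n (S.pt (Sum.inl j) v X) (S.pt (Sum.inl i) v Y)) ∨
       (∃ j, y * mom (S.rel i) p n X Y
          ≤ mom (S.rel i) p n (S.pt (Sum.inr j) v X) (S.pt (Sum.inl i) v Y)) ∨
       (∃ j, μ * mom (S.rel i) p n X Y ≤ mom (S.rel i) p n (S.pt (Sum.inr j) v X) Y)) := by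
  have hS0 : 0 < mom (S.rel i) p n X Y := by
    by_contra h
    push Not at h
    linarith only [hS, hτ, h, mul_nonneg_of_nonpos_of_nonpos (le_of_lt (Mathlib.Tactic.Linarith.sub_neg_of_lt hτ)) (Mathlib.Tactic.Linarith.sub_nonpos_of_le h)]
  obtain ⟨v, hv, hd, hq⟩ := exists_vertex (S.rel i) hp hn X Y hS0
  rw [S.filter_rel] at hd hq
  refine ⟨v, hv, hd, ?_⟩
  by_contra hcon
  push Not at hcon
  obtain ⟨h1, h2, h3⟩ := hcon
  set M := mom (S.rel i) p n X Y with hM
  set Y' := S.pt (Sum.inl i) v Y with hY'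
  have hl₂ : 0 < l₂ := lt_of_lt_of_le hl₁ hl
  have hpart : ∀ (Z : Finset V) (l : ℝ), 0 < l →
      (n + 1 : ℝ) * ∑ u ∈ Z, (max (exc (S.rel i) p Y u) 0) ^ n * exc (S.rel i) p Y' u
        ≤ n * l * mom (S.rel i) p n Z Y + (l ^ n)⁻¹ * mom (S.rel i) p n Z Y' := by
    intro Z l hl0
    unfold mom
    rw [mul_sum, mul_sum, mul_sum, ← sum_add_distrib]
    exact sum_le_sum fun u _ => young_pow n _ (le_max_right _ _) hl0
  rw [S.sum_split _ hv] at hq
  have hself : (max (exc (S.rel i) p Y v) 0) ^ n * exc (S.rel i) p Y' v ≤ 1 := by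
    have a : (max (exc (S.rel i) p Y v) 0) ^ n ≤ 1 :=
      pow_le_one₀ (le_max_right _ _) (max_le (exc_le_one _ hp _ _) zero_le_one)
    have b := exc_le_one (S.rel i) hp Y' v
    have c : 0 ≤ (max (exc (S.rel i) p Y v) 0) ^ n := pow_nonneg (le_max_right _ _) _
    linarith only [a, b, c, mul_nonneg_of_nonpos_of_nonpos (Mathlib.Tactic.Linarith.sub_nonpos_of_le b) (Mathlib.Tactic.Linarith.sub_nonpos_of_le c)]
  set R := ∑ j : Fin ρ, mom (S.rel i) p n (S.pt (Sum.inl j) v X) Y with hR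
  set Bl := ∑ j : Fin σ, mom (S.rel i) p n (S.pt (Sum.inr j) v X) Y with hB
  have hRB : R + Bl ≤ M := by
    have := S.sum_split (fun u => (max (exc (S.rel i) p Y u) 0) ^ (n + 1)) hv
    have h0 : 0 ≤ (max (exc (S.rel i) p Y v) 0) ^ (n + 1) := pow_nonneg (le_max_right _ _) _
    have e : M = (max (exc (S.rel i) p Y v) 0) ^ (n + 1) + (R + Bl) := this
    linarith only [h0, e]
  have hBl : Bl ≤ σ * μ * M := by
    have : Bl ≤ ∑ _j : Fin σ, μ * M := sum_le_sum fun j _ => (h3 j).le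
    simp only [sum_const, card_univ, Fintype.card_fin, nsmul_eq_mul] at this
    linarith only [this]
  have e1 : (n + 1 : ℝ) * ∑ j : Fin ρ, ∑ u ∈ S.pt (Sum.inl j) v X,
      (max (exc (S.rel i) p Y u) 0) ^ n * exc (S.rel i) p Y' u
      ≤ n * l₁ * R + ρ * x * (l₁ ^ n)⁻¹ * M := by
    rw [mul_sum, hR, mul_sum]
    have : (ρ : ℝ) * x * (l₁ ^ n)⁻¹ * M = ∑ _j : Fin ρ, (l₁ ^ n)⁻¹ * (x * M) := by
      simp only [sum_const, card_univ, Fintype.card_fin, nsmul_eq_mul]; ring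
    rw [this, ← sum_add_distrib]
    refine sum_le_sum fun j _ => (hpart _ l₁ hl₁).trans ?_
    have := mul_le_mul_of_nonneg_left (h1 j).le (inv_nonneg.2 (pow_pos hl₁ n).le)
    linarith only [this]
  have e2 : (n + 1 : ℝ) * ∑ j : Fin σ, ∑ u ∈ S.pt (Sum.inr j) v X,
      (max (exc (S.rel i) p Y u) 0) ^ n * exc (S.rel i) p Y' u
      ≤ n * l₂ * Bl + σ * y * (l₂ ^ n)⁻¹ * M := by
    rw [mul_sum, hB, mul_sum]
    have : (σ : ℝ) * y * (l₂ ^ n)⁻¹ * M = ∑ _j : Fin σ, (l₂ ^ n)⁻¹ * (y * M) := by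
      simp only [sum_const, card_univ, Fintype.card_fin, nsmul_eq_mul]; ring
    rw [this, ← sum_add_distrib]
    refine sum_le_sum fun j _ => (hpart _ l₂ hl₂).trans ?_
    have := mul_le_mul_of_nonneg_left (h2 j).le (inv_nonneg.2 (pow_pos hl₂ n).le)
    linarith only [this]
  have hn0 : (0 : ℝ) ≤ n := Nat.cast_nonneg n
  have e3 : n * l₁ * R + n * l₂ * Bl ≤ n * (l₁ + (l₂ - l₁) * (σ * μ)) * M := by
    have a : l₁ * (R + Bl) ≤ l₁ * M := mul_le_mul_of_nonneg_left hRB hl₁.le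
    have b : (l₂ - l₁) * Bl ≤ (l₂ - l₁) * (σ * μ * M) :=
      mul_le_mul_of_nonneg_left hBl (sub_nonneg.2 hl)
    have c : l₁ * R + l₂ * Bl ≤ (l₁ + (l₂ - l₁) * (σ * μ)) * M := by linarith only [a, b]
    have := mul_le_mul_of_nonneg_left c hn0
    linarith only [this]
  have e4 := mul_le_mul_of_nonneg_right hc hS0.le
  have e5 : (n + 1 : ℝ) * M ≤ (n + 1) * 1 + (n + 1) * ((1 - τ) * M) := by linarith only [hq, hself, e1, e2, e3, e4, mul_nonneg_of_nonpos_of_nonpos (Mathlib.Tactic.Linarith.sub_nonpos_of_le (Mathlib.Tactic.Linarith.natCast_nonneg ℝ n)) (Mathlib.Tactic.Linarith.sub_nonpos_of_le hq), mul_nonneg_of_nonpos_of_nonpos (Mathlib.Tactic.Linarith.sub_nonpos_of_le (Mathlib.Tactic.Linarith.natCast_nonneg ℝ n)) (Mathlib.Tactic.Linarith.sub_nonpos_of_le hself)]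
  have e6 : (0 : ℝ) < n + 1 := by positivity
  have e7 : M ≤ 1 + (1 - τ) * M := by
    have : (n + 1 : ℝ) * M ≤ (n + 1) * (1 + (1 - τ) * M) := by linarith only [e5]
    exact le_of_mul_le_mul_left this e6
  linarith only [hS, e7]

end Pool.Agent.Work.MP_e10cd8_co
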