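import Pool.Agent.Work.MP_e10cd8_co.Check

/-!
Sweeps of slope updates along a chain, and the check of one cell of ratios.
-/

namespace Pool.Agent.Work.MP_e10cd8_co

open Finset Filter Topology

structure Upd where
  c : ℕ
  i : ℕ
  m : ℕ
  u : ℕ
  s : ℕ
  L : ℕ
  b : ℕ

def ineq (η Γ₀ t₀ Γ₁ t₁ a₀ b₀ m s : ℕ) : Bool :=
  Nat.ble (s * a₀ * D + m * D * t₀ + s * b₀ * t₁ + D * Γ₀ + s * Γ₁) ((D + s) * η)

noncomputable def ev (k : ℕ) (z x y : ℝ) : ℝ := k * ((1 - z) * x + z * y)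

lemma ev_mono {k : ℕ} {z x y x' y' : ℝ} (h0 : 0 ≤ z) (h1 : z ≤ 1) (hx : x ≤ x') (hy : y ≤ y') :
    ev k z x y ≤ ev k z x' y' := by
  unfold ev
  refine mul_le_mul_of_nonneg_left ?_ (Nat.cast_nonneg _)
  have := mul_le_mul_of_nonneg_left hx (sub_nonneg.2 h1)
  have := mul_le_mul_of_nonneg_left hy h0
  linarith

lemma ineq_ev {η Γ₀ t₀ Γ₁ t₁ η' Γ₀' t₀' Γ₁' t₁' a₀ b₀ m s : ℕ}
    (h : ineq η Γ₀ t₀ Γ₁ t₁ a₀ b₀ m s = true) (h' : ineq η' Γ₀' t₀' Γ₁' t₁' a₀ b₀ m s = true)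
    (k : ℕ) {z : ℝ} (h0 : 0 ≤ z) (h1 : z ≤ 1) :
    s * a₀ * D * k + m * D * ev k z t₀ t₀' + s * b₀ * ev k z t₁ t₁' + D * ev k z Γ₀ Γ₀'
      + s * ev k z Γ₁ Γ₁' ≤ (D + s) * ev k z η η' := by
  simp only [ineq, Nat.ble_eq] at h h'
  have g : (s : ℝ) * a₀ * D + m * D * t₀ + s * b₀ * t₁ + D * Γ₀ + s * Γ₁ ≤ (D + s) * η := by
    exact_mod_cast h
  have g' : (s : ℝ) * a₀ * D + m * D * t₀' + s * b₀ * t₁' + D * Γ₀' + s * Γ₁'
      ≤ (D + s) * η' := by exact_mod_cast h'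
  have := ev_mono (k := k) h0 h1 g g'
  unfold ev at this ⊢
  linarith

lemma affine_le {α β lo hi x c : ℝ} (h1 : α + β * lo ≤ c) (h2 : α + β * hi ≤ c) (a : lo ≤ x)
    (b : x ≤ hi) : α + β * x ≤ c := by
  rcases le_total 0 β with h | h
  · have := mul_le_mul_of_nonneg_left b h; linarith
  · have := mul_le_mul_of_nonpos_left a h; linarith

variable {ρ σ : ℕ} {K : ℝ → ℝ → ℝ → ℝ → ℝ → ℝ} {Q : ℕ × ℕ → Prop}

lemma point₁ {q : ℕ × ℕ} {L m s b : ℕ} (hq : Q q)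
    (hb : BookOK ρ σ (L / D) (s / D) (q.1 / D) (m / D) (b / D)) {δ : ℝ} (hδ : 0 < δ)
    {c τ uo Δ τ₀ : ℕ} {rest : List (ℕ × ℕ)} (huo : uo ≠ 0) (hw : walk c τ rest = some (Δ, τ₀)) :
    ∀ᶠ C : ℝ in atTop, ∀ (k l : ℕ) (n : ℕ → ℝ), Seq ρ σ K Q C k l n →
      ∀ (UP : ℝ), Slopes n k UP ((τ, uo) :: rest) → ∀ (t₁ : ℕ) (η Γ₁ : ℝ),
      (τ : ℝ) * k < D * t₁ → (D : ℝ) * t₁ ≤ UP → t₁ ≤ l →
      δ * C * Real.exp ((η - Γ₁) / D ^ 2) ≤ n t₁ →
      s * q.1 * D * k + m * D * (τ₀ * k) + s * q.2 * (D * t₁)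
        + D * (Γ₁ + uo * (D * t₁ - τ * k) + Δ * k) + s * Γ₁ ≤ (D + s) * η →
      Real.exp (-((b : ℝ) / D)) * n t₁ ≤ n (t₁ - 1) := by
  obtain ⟨hτ, δw, hδw, hw'⟩ := walk_sound c τ rest Δ τ₀ hw
  have hD := D_pos
  filter_upwards [apply_book (K := K) hq hb (δ₀ := δw * Real.exp (-((uo : ℝ) / D)) * δ) (δ₁ := δ)
    (by positivity) hδ] with C hC
  intro k l n hn UP hs t₁ η Γ₁ a1 a2 a3 a4 a5
  obtain ⟨hs1, hs2⟩ := hs
  have hτ' : (τ₀ : ℝ) * k ≤ τ * k :=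
    mul_le_mul_of_nonneg_right (by exact_mod_cast hτ) (Nat.cast_nonneg _)
  have hτ0 : (0 : ℝ) ≤ τ₀ * k := by positivity
  have f1 : (D : ℝ) * ⌊(τ₀ : ℝ) * k / D⌋₊ ≤ τ₀ * k := by
    have := Nat.floor_le (show 0 ≤ (τ₀ : ℝ) * k / D by positivity)
    rw [le_div_iff₀ hD] at this; linarith
  have f2 : ⌊(τ₀ : ℝ) * k / D⌋₊ < t₁ := by
    have : (D : ℝ) * ⌊(τ₀ : ℝ) * k / D⌋₊ < D * t₁ := by linarith
    exact_mod_cast lt_of_mul_lt_mul_left this hD.le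
  refine hC k l n hn ⌊(τ₀ : ℝ) * k / D⌋₊ t₁ η (Γ₁ + uo * (D * t₁ - τ * k) + Δ * k) Γ₁ (τ₀ * k)
    f2.le (by omega) a3 f1 ?_ a4 a5
  have b1 := desc₂ hn.1 (u := uo) (lo := τ * k) (up := D * t₁) (Nat.cast_nonneg _)
    (by positivity) a1.le (fun t x y => hs1 huo t x (y.trans a2))
  have b2 : (D : ℝ) * t₁ / D = t₁ := by field_simp
  rw [b2, Nat.floor_natCast] at b1
  refine le_trans ?_ (hw' k n hn.1 hs2)
  refine le_trans ?_ (mul_le_mul_of_nonneg_left b1 (by positivity))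
  have b3 := mul_le_mul_of_nonneg_left a4 (show 0 ≤ δw * Real.exp (-((Δ : ℝ) * k / D ^ 2))
    * (Real.exp (-((uo : ℝ) / D)) * Real.exp (-(uo * (D * t₁ - τ * k) / D ^ 2))) by positivity)
  refine le_trans (le_of_eq ?_) (b3.trans (le_of_eq (by ring)))
  have b4 : Real.exp ((η - (Γ₁ + uo * (D * t₁ - τ * k) + Δ * k)) / D ^ 2)
      = Real.exp (-((Δ : ℝ) * k / D ^ 2)) * Real.exp (-(uo * (D * t₁ - τ * k) / D ^ 2))
        * Real.exp ((η - Γ₁) / D ^ 2) := by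
    rw [← Real.exp_add, ← Real.exp_add]; congr 1; ring
  rw [b4]; ring

/-- Downward induction inside one segment. -/
lemma seg_ind {n : ℕ → ℝ} (_hn : ∀ t, 0 ≤ n t) {b lo UP A η Γ : ℝ} (hb : 0 ≤ b) (hA : 0 ≤ A)
    (h0 : A * Real.exp ((η - Γ) / D ^ 2) ≤ n ⌊UP / D⌋₊)
    (h : ∀ t : ℕ, lo < D * t → (D : ℝ) * t ≤ UP →
      A * Real.exp ((η - (Γ + b * (UP - D * t))) / D ^ 2) ≤ n t →
      Real.exp (-(b / D)) * n t ≤ n (t - 1)) :
    ∀ t : ℕ, lo < D * t → (D : ℝ) * t ≤ UP → Real.exp (-(b / D)) * n t ≤ n (t - 1) := by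
  have hD := D_pos
  have key : ∀ d t : ℕ, t + d = ⌊UP / D⌋₊ → lo < D * t → (D : ℝ) * t ≤ UP →
      Real.exp (-(b / D)) * n t ≤ n (t - 1) := by
    intro d
    induction d using Nat.strong_induction_on with
    | _ d ih =>
    intro t ht a1 a2
    have hUP : 0 ≤ UP / D := div_nonneg (le_trans (by positivity) a2) hD.le
    have f1 : ((t + d : ℕ) : ℝ) ≤ UP / D := by rw [ht]; exact Nat.floor_le hUP
    rw [le_div_iff₀ hD] at f1
    push_cast at f1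
    apply h t a1 a2
    have b1 := desc (n := n) (u := b / D) t d (by
      intro t' x y
      have x' : (t : ℝ) ≤ t' := by exact_mod_cast x.le
      have y' : (t' : ℝ) ≤ t + d := by exact_mod_cast y
      exact ih (t + d - t') (by omega) t' (by omega) (by nlinarith) (by nlinarith))
    rw [ht] at b1
    refine le_trans ?_ b1
    refine le_trans ?_ (mul_le_mul_of_nonneg_left h0 (Real.exp_pos _).le)
    rw [mul_left_comm, ← Real.exp_add]
    refine mul_le_mul_of_nonneg_left (Real.exp_le_exp.2 ?_) hA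
    have c1 : b * (D * d) ≤ b * (UP - D * t) := mul_le_mul_of_nonneg_left (by linarith) hb
    have c2 : -(b / D * d) + (η - Γ) / D ^ 2 = (η - (Γ + b * (D * d))) / D ^ 2 := by
      field_simp; ring
    rw [c2]
    exact div_le_div_of_nonneg_right (by linarith) (by positivity)
  intro t a1 a2
  have : t ≤ ⌊UP / D⌋₊ := Nat.le_floor (by rw [le_div_iff₀ hD]; linarith)
  exact key (⌊UP / D⌋₊ - t) t (by omega) a1 a2

def updOK (ρ σ : ℕ) (g : ℕ → ℕ × ℕ) (nQ η₁ η₂ Γ₁ Γ₂ up₁ up₂ τ uo : ℕ) (rest : List (ℕ × ℕ))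
    (p : Upd) : Bool :=
  let q := g p.i
  let G₁ := Γ₁ + p.b * (up₁ - τ)
  let G₂ := Γ₂ + p.b * (up₂ - τ)
  Nat.blt p.i nQ && bkOK ρ σ q.1 p.L p.m p.u p.s p.b &&
  match p.c with
  | 0 => ineq η₁ Γ₁ up₁ Γ₁ up₁ q.1 q.2 p.m p.s && ineq η₂ Γ₂ up₂ Γ₂ up₂ q.1 q.2 p.m p.s &&
      ineq η₁ G₁ τ G₁ τ q.1 q.2 p.m p.s && ineq η₂ G₂ τ G₂ τ q.1 q.2 p.m p.s
  | c + 1 => Nat.blt 0 uo &&
    match walk c τ rest with
    | none => false
    | some w =>
      ineq η₁ (Γ₁ + uo * (up₁ - τ) + w.1) w.2 Γ₁ up₁ q.1 q.2 p.m p.s &&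
      ineq η₂ (Γ₂ + uo * (up₂ - τ) + w.1) w.2 Γ₂ up₂ q.1 q.2 p.m p.s &&
      ineq η₁ (G₁ + w.1) w.2 G₁ τ q.1 q.2 p.m p.s && ineq η₂ (G₂ + w.1) w.2 G₂ τ q.1 q.2 p.m p.s

/-- The pairs listed by `g` below `nQ`. -/
def Listed (g : ℕ → ℕ × ℕ) (nQ : ℕ) (q : ℕ × ℕ) : Prop := ∃ i < nQ, g i = q

lemma updOK_sound {g : ℕ → ℕ × ℕ} {nQ η₁ η₂ Γ₁ Γ₂ up₁ up₂ τ uo : ℕ} {rest : List (ℕ × ℕ)}
    {p : Upd} (h : updOK ρ σ g nQ η₁ η₂ Γ₁ Γ₂ up₁ up₂ τ uo rest p = true) (t1 : τ ≤ up₁)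
    (t2 : τ ≤ up₂) {δ : ℝ} (hδ : 0 < δ) :
    ∀ᶠ C : ℝ in atTop, ∀ (k l : ℕ) (n : ℕ → ℝ) (z : ℝ), 0 ≤ z → z ≤ 1 →
      Seq ρ σ K (Listed g nQ) C k l n → ev k z up₁ up₂ ≤ D * l →
      Slopes n k (ev k z up₁ up₂) ((τ, uo) :: rest) →
      δ * C * Real.exp ((ev k z η₁ η₂ - ev k z Γ₁ Γ₂) / D ^ 2) ≤ n ⌊ev k z up₁ up₂ / D⌋₊ →
      ∀ t : ℕ, (τ : ℝ) * k < D * t → (D : ℝ) * t ≤ ev k z up₁ up₂ →
        Real.exp (-((p.b : ℝ) / D)) * n t ≤ n (t - 1) := by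
  obtain ⟨c, i, m, u, s, L, b⟩ := p
  simp only [updOK, Bool.and_eq_true, Nat.blt_eq] at h
  obtain ⟨⟨hi, hb⟩, h⟩ := h
  have hq : Listed g nQ (g i) := ⟨i, hi, rfl⟩
  have hb' := bkOK_sound hb
  have hD := D_pos
  cases c with
  | zero =>
    simp only [Bool.and_eq_true] at h
    obtain ⟨⟨⟨h1, h2⟩, h3⟩, h4⟩ := h
    filter_upwards [apply_book (K := K) hq hb' hδ hδ, eventually_ge_atTop (0 : ℝ)] with C hC hC0
    intro k l n z z0 z1 hn hl _ ha
    refine seg_ind hn.1 (Nat.cast_nonneg _) (by positivity) ha ?_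
    intro t a1 a2 a3
    have e1 := ineq_ev h1 h2 k z0 z1
    have e2 := ineq_ev h3 h4 k z0 z1
    have tl : t ≤ l := by
      have : (D : ℝ) * t ≤ D * l := a2.trans hl
      exact_mod_cast le_of_mul_le_mul_left this hD
    have t0 : 1 ≤ t := by
      by_contra x
      have : t = 0 := by omega
      subst this
      have : (0 : ℝ) ≤ τ * k := by positivity
      simp at a1; linarith
    refine hC k l n hn t t _ _ _ (D * t) le_rfl t0 tl le_rfl a3 a3 ?_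
    push_cast [Nat.cast_sub t1, Nat.cast_sub t2] at e2
    have := affine_le (α := s * (g i).1 * D * k + (D + s) * (ev k z Γ₁ Γ₂ + b * ev k z up₁ up₂))
      (β := m * D + s * (g i).2 - (D + s) * b) (lo := τ * k) (hi := ev k z up₁ up₂)
      (c := (D + s) * ev k z η₁ η₂) (by unfold ev at e2 ⊢; linarith) (by linarith) a1.le a2
    linarith
  | succ c =>
    simp only [Bool.and_eq_true, Nat.blt_eq] at h
    obtain ⟨huo, h⟩ := h
    cases hw : walk c τ rest with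
    | none => simp [hw] at h
    | some w =>
    obtain ⟨Δ, τ₀⟩ := w
    simp only [hw, Bool.and_eq_true] at h
    obtain ⟨⟨⟨h1, h2⟩, h3⟩, h4⟩ := h
    filter_upwards [point₁ (K := K) hq hb' hδ (uo := uo) (by omega) hw,
      eventually_ge_atTop (0 : ℝ)] with C hC hC0
    intro k l n z z0 z1 hn hl hs ha
    refine seg_ind hn.1 (Nat.cast_nonneg _) (by positivity) ha ?_
    intro t a1 a2 a3
    have e1 := ineq_ev h1 h2 k z0 z1
    have e2 := ineq_ev h3 h4 k z0 z1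
    have tl : t ≤ l := by
      have : (D : ℝ) * t ≤ D * l := a2.trans hl
      exact_mod_cast le_of_mul_le_mul_left this hD
    refine hC k l n hn _ hs t _ _ a1 a2 tl a3 ?_
    push_cast [Nat.cast_sub t1, Nat.cast_sub t2] at e1 e2
    have := affine_le (α := s * (g i).1 * D * k + m * D * (τ₀ * k) + D * (Δ * k - uo * (τ * k))
        + (D + s) * (ev k z Γ₁ Γ₂ + b * ev k z up₁ up₂))
      (β := D * uo + s * (g i).2 - (D + s) * b) (lo := τ * k) (hi := ev k z up₁ up₂)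
      (c := (D + s) * ev k z η₁ η₂) (by unfold ev at e2 ⊢; linarith)
      (by unfold ev at e1 ⊢; linarith) a1.le a2
    linarith

def sweep (ρ σ : ℕ) (g : ℕ → ℕ × ℕ) (nQ η₁ η₂ : ℕ) :
    List (ℕ × ℕ) → List Upd → ℕ → ℕ → ℕ → ℕ → Option (List (ℕ × ℕ))
  | [], _, _, _, _, _ => some []
  | x :: rest, [], _, _, _, _ => some (x :: rest)
  | x :: rest, p :: ps, Γ₁, Γ₂, up₁, up₂ =>
    if Nat.ble x.1 up₁ && Nat.ble x.1 up₂ then
      if Nat.beq p.s 0 then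
        if Nat.beq x.2 0 then some (x :: rest)
        else (sweep ρ σ g nQ η₁ η₂ rest ps (Γ₁ + x.2 * (up₁ - x.1)) (Γ₂ + x.2 * (up₂ - x.1))
          x.1 x.1).map fun r => x :: r
      else if updOK ρ σ g nQ η₁ η₂ Γ₁ Γ₂ up₁ up₂ x.1 x.2 rest p then
        (sweep ρ σ g nQ η₁ η₂ rest ps (Γ₁ + p.b * (up₁ - x.1)) (Γ₂ + p.b * (up₂ - x.1))
          x.1 x.1).map fun r => (x.1, p.b) :: r
      else none
    else none

lemma anchor_step {n : ℕ → ℝ} (hn : ∀ t, 0 ≤ n t) {k τ u Γ₁ Γ₂ up₁ up₂ : ℕ} {z A η : ℝ}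
    (z0 : 0 ≤ z) (z1 : z ≤ 1) (t1 : τ ≤ up₁) (t2 : τ ≤ up₂)
    (ha : A * Real.exp ((η - ev k z Γ₁ Γ₂) / D ^ 2) ≤ n ⌊ev k z up₁ up₂ / D⌋₊)
    (hs : ∀ t : ℕ, (τ : ℝ) * k < D * t → (D : ℝ) * t ≤ ev k z up₁ up₂ →
        Real.exp (-((u : ℝ) / D)) * n t ≤ n (t - 1)) :
    ev k z τ τ = τ * k ∧ (τ : ℝ) * k ≤ ev k z up₁ up₂ ∧
    Real.exp (-((u : ℝ) / D)) * A * Real.exp ((η
      - ev k z (Γ₁ + u * (up₁ - τ) : ℕ) (Γ₂ + u * (up₂ - τ) : ℕ)) / D ^ 2)
      ≤ n ⌊(τ : ℝ) * k / D⌋₊ := by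
  have e1 : ev k z τ τ = τ * k := by unfold ev; ring
  have e2 : (τ : ℝ) * k ≤ ev k z up₁ up₂ := by
    rw [← e1]; exact ev_mono z0 z1 (by exact_mod_cast t1) (by exact_mod_cast t2)
  refine ⟨e1, e2, ?_⟩
  have b1 := desc₂ hn (u := u) (Nat.cast_nonneg _) (by positivity) e2 hs
  refine le_trans ?_ b1
  refine le_trans (le_of_eq ?_) (mul_le_mul_of_nonneg_left ha (by positivity))
  have b4 : Real.exp ((η - ev k z (Γ₁ + u * (up₁ - τ) : ℕ) (Γ₂ + u * (up₂ - τ) : ℕ)) / D ^ 2)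
      = Real.exp (-(u * (ev k z up₁ up₂ - τ * k) / D ^ 2))
        * Real.exp ((η - ev k z Γ₁ Γ₂) / D ^ 2) := by
    rw [← Real.exp_add]; congr 1
    push_cast [Nat.cast_sub t1, Nat.cast_sub t2]
    unfold ev; ring
  rw [b4]; ring

lemma sweep_sound {g : ℕ → ℕ × ℕ} {nQ η₁ η₂ : ℕ} : ∀ (segs : List (ℕ × ℕ)) (ps : List Upd)
    (Γ₁ Γ₂ up₁ up₂ : ℕ) (new : List (ℕ × ℕ)) (δ : ℝ), 0 < δ →
    sweep ρ σ g nQ η₁ η₂ segs ps Γ₁ Γ₂ up₁ up₂ = some new →
    ∀ᶠ C : ℝ in atTop, ∀ (k l : ℕ) (n : ℕ → ℝ) (z : ℝ), 0 ≤ z → z ≤ 1 →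
      Seq ρ σ K (Listed g nQ) C k l n → ev k z up₁ up₂ ≤ D * l →
      Slopes n k (ev k z up₁ up₂) segs →
      δ * C * Real.exp ((ev k z η₁ η₂ - ev k z Γ₁ Γ₂) / D ^ 2) ≤ n ⌊ev k z up₁ up₂ / D⌋₊ →
      Slopes n k (ev k z up₁ up₂) new
  | [], ps, Γ₁, Γ₂, up₁, up₂, new, δ, _, h => by
    simp only [sweep, Option.some.injEq] at h
    subst h
    exact Eventually.of_forall fun _ _ _ _ _ _ _ _ _ h _ => h
  | x :: rest, [], Γ₁, Γ₂, up₁, up₂, new, δ, _, h => by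
    simp only [sweep, Option.some.injEq] at h
    subst h
    exact Eventually.of_forall fun _ _ _ _ _ _ _ _ _ h _ => h
  | (τ, uo) :: rest, p :: ps, Γ₁, Γ₂, up₁, up₂, new, δ, hδ, h => by
    rw [sweep] at h
    split_ifs at h with c1 c2 c3 c4
    · simp only [Option.some.injEq] at h
      subst h
      exact Eventually.of_forall fun _ _ _ _ _ _ _ _ _ h _ => h
    · simp only [Bool.and_eq_true, Nat.ble_eq] at c1
      simp only [Nat.beq_eq] at c3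
      obtain ⟨r, h1, rfl⟩ := Option.map_eq_some_iff.1 h
      filter_upwards [sweep_sound rest ps _ _ _ _ r (Real.exp (-((uo : ℝ) / D)) * δ)
        (by positivity) h1] with C hC
      intro k l n z z0 z1 hn hl hs ha
      obtain ⟨e1, e2, e3⟩ := anchor_step hn.1 z0 z1 c1.1 c1.2 ha (hs.1 c3)
      refine ⟨hs.1, ?_⟩
      have := hC k l n z z0 z1 hn
      simp only [e1] at this
      exact this (e2.trans hl) hs.2 (by rw [mul_assoc _ δ]; exact e3)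
    · simp only [Bool.and_eq_true, Nat.ble_eq] at c1
      obtain ⟨r, h1, rfl⟩ := Option.map_eq_some_iff.1 h
      filter_upwards [sweep_sound rest ps _ _ _ _ r (Real.exp (-((p.b : ℝ) / D)) * δ)
        (by positivity) h1, updOK_sound (K := K) c4 c1.1 c1.2 hδ] with C hC hU
      intro k l n z z0 z1 hn hl hs ha
      have hU' := hU k l n z z0 z1 hn hl hs ha
      obtain ⟨e1, e2, e3⟩ := anchor_step hn.1 z0 z1 c1.1 c1.2 ha hU'
      refine ⟨fun _ => hU', ?_⟩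
      have := hC k l n z z0 z1 hn
      simp only [e1] at this
      exact this (e2.trans hl) hs.2 (by rw [mul_assoc _ δ]; exact e3)

def sweeps (ρ σ : ℕ) (g : ℕ → ℕ × ℕ) (nQ η₁ η₂ lo hi : ℕ) :
    List (List Upd) → List (ℕ × ℕ) → Option (List (ℕ × ℕ))
  | [], segs => some segs
  | ps :: pss, segs =>
    match sweep ρ σ g nQ η₁ η₂ segs ps 0 0 lo hi with
    | none => none
    | some new => sweeps ρ σ g nQ η₁ η₂ lo hi pss new

lemma sweeps_sound {g : ℕ → ℕ × ℕ} {nQ η₁ η₂ lo hi : ℕ} : ∀ (pss : List (List Upd))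
    (segs new : List (ℕ × ℕ)), sweeps ρ σ g nQ η₁ η₂ lo hi pss segs = some new →
    ∀ᶠ C : ℝ in atTop, ∀ (k l : ℕ) (n : ℕ → ℝ) (z : ℝ), 0 ≤ z → z ≤ 1 →
      Seq ρ σ K (Listed g nQ) C k l n → ev k z lo hi = D * l →
      Slopes n k (D * l) segs →
      C * Real.exp (ev k z η₁ η₂ / D ^ 2) ≤ n l → Slopes n k (D * l) new
  | [], segs, new, h => by
    simp only [sweeps, Option.some.injEq] at h
    subst h
    exact Eventually.of_forall fun _ _ _ _ _ _ _ _ _ h _ => h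
  | ps :: pss, segs, new, h => by
    rw [sweeps] at h
    cases hw : sweep ρ σ g nQ η₁ η₂ segs ps 0 0 lo hi with
    | none => simp [hw] at h
    | some mid =>
    simp only [hw] at h
    filter_upwards [sweeps_sound pss mid new h,
      sweep_sound (K := K) segs ps 0 0 lo hi mid 1 one_pos hw] with C h1 h2
    intro k l n z z0 z1 hn hl hs ha
    refine h1 k l n z z0 z1 hn hl ?_ ha
    have := h2 k l n z z0 z1 hn
    rw [hl] at this
    refine this le_rfl hs ?_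
    have hD := D_pos
    have b2 : (D : ℝ) * l / D = l := by field_simp
    rw [b2, Nat.floor_natCast]
    simpa [ev] using ha

def finOK (ρ σ : ℕ) (g : ℕ → ℕ × ℕ) (nQ η₁ η₂ lo hi : ℕ) (segs : List (ℕ × ℕ)) (p : Upd) :
    Bool :=
  let q := g p.i
  Nat.blt p.i nQ && bkOK ρ σ q.1 p.L p.m p.u p.s p.b &&
  match p.c, segs with
  | 0, _ => ineq η₁ 0 lo 0 lo q.1 q.2 p.m p.s && ineq η₂ 0 hi 0 hi q.1 q.2 p.m p.s
  | _ + 1, [] => false
  | c + 1, x :: rest => Nat.blt 0 x.2 && Nat.ble x.1 lo && Nat.ble x.1 hi &&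
    match walk c x.1 rest with
    | none => false
    | some w =>
      ineq η₁ (x.2 * (lo - x.1) + w.1) w.2 0 lo q.1 q.2 p.m p.s &&
      ineq η₂ (x.2 * (hi - x.1) + w.1) w.2 0 hi q.1 q.2 p.m p.s

def cellChk (ρ σ : ℕ) (g : ℕ → ℕ × ℕ) (nQ lo hi a b : ℕ) (τs : List ℕ) (pss : List (List Upd))
    (p : Upd) : Bool :=
  Nat.ble p.b b &&
  match sweeps ρ σ g nQ (a * D + b * lo) (a * D + b * hi) lo hi pss (τs.map fun τ => (τ, 0)) with
  | none => false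
  | some segs => finOK ρ σ g nQ (a * D + b * lo) (a * D + b * hi) lo hi segs p

lemma slopes_init (n : ℕ → ℝ) (k : ℕ) : ∀ (τs : List ℕ) (up : ℝ),
    Slopes n k up (τs.map fun τ => (τ, 0))
  | [], _ => trivial
  | _ :: τs, _ => ⟨fun h => absurd rfl h, slopes_init n k τs _⟩

/-- The numerical conclusion for one cell of ratios. -/
def CellNum (ρ σ : ℕ) (K : ℝ → ℝ → ℝ → ℝ → ℝ → ℝ) (Q : ℕ × ℕ → Prop) (lo hi a b : ℕ) : Prop :=
  ∀ᶠ C : ℝ in atTop, ∀ (k l : ℕ) (n : ℕ → ℝ), (lo : ℝ) * k < D * l → (D : ℝ) * l ≤ hi * k →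
    Seq ρ σ K Q C k l n → C * Real.exp (a / D * k + b / D * l) ≤ n l →
    Real.exp (-((b : ℝ) / D)) * n l ≤ n (l - 1)

theorem cellChk_sound {g : ℕ → ℕ × ℕ} {nQ lo hi a b : ℕ} {τs : List ℕ} {pss : List (List Upd)}
    {p : Upd} (h : cellChk ρ σ g nQ lo hi a b τs pss p = true) :
    CellNum ρ σ K (Listed g nQ) lo hi a b := by
  have hD := D_pos
  simp only [cellChk, Bool.and_eq_true, Nat.ble_eq] at h
  obtain ⟨hpb, h⟩ := h
  cases hw : sweeps ρ σ g nQ (a * D + b * lo) (a * D + b * hi) lo hi pss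
    (τs.map fun τ => (τ, 0)) with
  | none => simp [hw] at h
  | some segs =>
  simp only [hw] at h
  obtain ⟨c, i, m, u, s, L, b'⟩ := p
  simp only [finOK, Bool.and_eq_true, Nat.blt_eq] at h
  obtain ⟨⟨hi', hb⟩, h⟩ := h
  have hq : Listed g nQ (g i) := ⟨i, hi', rfl⟩
  have hb' := bkOK_sound hb
  have main : ∀ᶠ C : ℝ in atTop, ∀ (k l : ℕ) (n : ℕ → ℝ) (z : ℝ), 0 ≤ z → z ≤ 1 →
      Seq ρ σ K (Listed g nQ) C k l n → ev k z lo hi = D * l → (lo : ℝ) * k < D * l →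
      Slopes n k (D * l) segs →
      C * Real.exp (ev k z (a * D + b * lo : ℕ) (a * D + b * hi : ℕ) / D ^ 2) ≤ n l →
      Real.exp (-((b' : ℝ) / D)) * n l ≤ n (l - 1) := by
    cases c with
    | zero =>
      simp only [Bool.and_eq_true] at h
      filter_upwards [apply_book (K := K) hq hb' one_pos one_pos] with C hC
      intro k l n z z0 z1 hn hl hlo _ ha
      have e1 := ineq_ev h.1 h.2 k z0 z1
      have t0 : 1 ≤ l := by
        by_contra x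
        have : l = 0 := by omega
        subst this
        have : (0 : ℝ) ≤ lo * k := by positivity
        simp at hlo; linarith
      refine hC k l n hn l l _ 0 0 (D * l) le_rfl t0 le_rfl le_rfl (by simpa using ha)
        (by simpa using ha) ?_
      rw [hl] at e1
      simpa [ev] using e1
    | succ c =>
      cases segs with
      | nil => simp at h
      | cons x rest =>
      obtain ⟨τ, uo⟩ := x
      simp only [Bool.and_eq_true, Nat.blt_eq, Nat.ble_eq] at h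
      obtain ⟨⟨⟨huo, t1⟩, t2⟩, h⟩ := h
      cases hw' : walk c τ rest with
      | none => simp [hw'] at h
      | some w =>
      obtain ⟨Δ, τ₀⟩ := w
      simp only [hw', Bool.and_eq_true] at h
      filter_upwards [point₁ (K := K) hq hb' one_pos (uo := uo) (by omega) hw'] with C hC
      intro k l n z z0 z1 hn hl hlo hs ha
      have e1 := ineq_ev h.1 h.2 k z0 z1
      have t3 : (τ : ℝ) * k ≤ lo * k :=
        mul_le_mul_of_nonneg_right (by exact_mod_cast t1) (Nat.cast_nonneg _)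
      refine hC k l n hn _ hs l _ 0 (by linarith) le_rfl le_rfl (by simpa using ha) ?_
      rw [← hl]
      push_cast [Nat.cast_sub t1, Nat.cast_sub t2] at e1 ⊢
      unfold ev at e1 ⊢
      linarith
  filter_upwards [main, sweeps_sound (K := K) _ _ _ hw] with C h1 h2
  intro k l n a1 a2 hn ha
  have hk : (0 : ℝ) < k := by
    rcases Nat.eq_zero_or_pos k with rfl | h
    · simp only [Nat.cast_zero, mul_zero] at a1 a2; linarith
    · exact_mod_cast h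
  have hlh : (0 : ℝ) < hi - lo := by
    by_contra x
    push Not at x
    have : (hi : ℝ) * k ≤ lo * k := mul_le_mul_of_nonneg_right (by linarith) hk.le
    linarith
  set z : ℝ := (D * l - lo * k) / ((hi - lo) * k) with hz
  have z0 : 0 ≤ z := div_nonneg (by linarith) (by positivity)
  have z1 : z ≤ 1 := by rw [hz, div_le_one (by positivity)]; linarith
  have hl : ev k z lo hi = D * l := by unfold ev; rw [hz]; field_simp; ring
  have ha' : C * Real.exp (ev k z (a * D + b * lo : ℕ) (a * D + b * hi : ℕ) / D ^ 2) ≤ n l := by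
    have : ev k z (a * D + b * lo : ℕ) (a * D + b * hi : ℕ) = a * D * k + b * ev k z lo hi := by
      unfold ev; push_cast; ring
    rw [this, hl]
    convert ha using 3
    field_simp
  have := h1 k l n z z0 z1 hn hl a1 (h2 k l n z z0 z1 hn hl (slopes_init n k τs _) ha') ha'
  refine le_trans (mul_le_mul_of_nonneg_right (Real.exp_le_exp.2 ?_) (hn.1 _)) this
  have : (b' : ℝ) ≤ b := by exact_mod_cast hpb
  have := div_le_div_of_nonneg_right this hD.le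
  linarith

end Pool.Agent.Work.MP_e10cd8_co
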