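import Pool.Agent.Work.MP_e10cd8_co.Sweep

/-!
From the numerical cells to bounds for two-target systems.
-/

namespace Pool.Agent.Work.MP_e10cd8_co

open Finset Filter Topology
open scoped Classical

variable {V : Type} {ρ σ : ℕ}

noncomputable def bookK (ρ σ : ℕ) (L s a m b : ℝ) : ℝ :=
  if h : 0 < ρ ∧ BookOK ρ σ L s a m b then (book_thm h.1 h.2).choose else 1

lemma Sys.exists_next (S : Sys V ρ σ) (X : Finset V) :
    ∃ X' : Finset V, X' ⊆ X ∧ (X'.Nonempty → ∀ t, S.B t X' → S.B (t + 1) X) ∧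
      ∀ u ∈ X, ∀ j, (S.pt (Sum.inr j) u X).card ≤ X'.card := by
  rcases (X ×ˢ (univ : Finset (Fin σ))).eq_empty_or_nonempty with h | h
  · refine ⟨∅, empty_subset _, fun h => absurd h not_nonempty_empty, fun u hu j => ?_⟩
    have : (u, j) ∈ X ×ˢ (univ : Finset (Fin σ)) := mem_product.2 ⟨hu, mem_univ _⟩
    rw [h] at this
    exact absurd this (notMem_empty _)
  · obtain ⟨⟨v, j⟩, hv, hmax⟩ :=
      exists_max_image _ (fun p : V × Fin σ => (S.pt (Sum.inr p.2) p.1 X).card) h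
    exact ⟨S.pt (Sum.inr j) v X, S.pt_subset _ _ _,
      fun _ t hb => S.B_step (mem_product.1 hv).1 hb,
      fun u hu j' => hmax (u, j') (mem_product.2 ⟨hu, mem_univ _⟩)⟩

lemma Sys.exists_chain (S : Sys V ρ σ) (l : ℕ) (X : Finset V) :
    ∃ Z : ℕ → Finset V, Z l = X ∧
      (∀ t t', t ≤ t' → t' ≤ l → Z t ⊆ Z t' ∧ ((Z t).Nonempty → S.B t (Z t) → S.B t' (Z t'))) ∧
      ∀ t, 1 ≤ t → t ≤ l → ∀ u ∈ Z t, ∀ j, (S.pt (Sum.inr j) u (Z t)).card ≤ (Z (t - 1)).card := by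
  choose f h1 h2 h3 using S.exists_next
  have hstep : ∀ t, t < l → f^[l - t] X = f (f^[l - (t + 1)] X) := by
    intro t ht
    have : l - t = (l - (t + 1)) + 1 := by omega
    rw [this, Function.iterate_succ_apply']
  refine ⟨fun t => f^[l - t] X, by simp, ?_, ?_⟩
  · intro t t' h h'
    induction t', h using Nat.le_induction with
    | base => exact ⟨Subset.rfl, fun _ h => h⟩
    | succ t' h ih =>
      obtain ⟨a, b⟩ := ih (by omega)
      have e := hstep t' (by omega)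
      simp only at a b ⊢
      refine ⟨a.trans (by rw [e]; exact h1 _), fun hne hb => ?_⟩
      have c := b hne hb
      have d : (f^[l - t'] X).Nonempty := hne.mono a
      rw [e] at c d
      exact h2 _ d _ c
  · intro t h h' u hu j
    have e := hstep (t - 1) (by omega)
    have e' : t - 1 + 1 = t := by omega
    rw [e'] at e
    simp only
    rw [e]
    exact h3 _ u hu j

lemma Sys.exists_seq (S : Sys V ρ σ) (hρ : 0 < ρ) {Q : ℕ × ℕ → Prop} {C : ℝ} (hC : 1 ≤ C)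
    {k l : ℕ} (hl : 1 ≤ l) {X : Finset V} (hno : ¬ (S.A k X ∨ S.B l X))
    (H : ∀ q, Q q → ∀ k' ≤ k, ∀ t ≤ l, ∀ Y ⊆ X,
      2 * C * Real.exp (q.1 / D * k' + q.2 / D * t) ≤ Y.card → S.A k' Y ∨ S.B t Y) :
    ∃ (n : ℕ → ℝ) (X' : Finset V), Seq ρ σ (bookK ρ σ) Q C k l n ∧ n l = X.card ∧
      n (l - 1) = X'.card ∧ X' ⊆ X ∧ (X'.Nonempty → ¬ S.B (l - 1) X') := by
  obtain ⟨Z, hZ, hc, hd⟩ := S.exists_chain l X
  have hD := D_pos
  refine ⟨fun t => (Z t).card, Z (l - 1), ⟨fun t => Nat.cast_nonneg _, ?_⟩, by simp only [hZ], rfl,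
    hZ ▸ (hc _ _ (by omega) le_rfl).1,
    fun hne hb => hno (Or.inr (hZ ▸ (hc _ _ (by omega) le_rfl).2 hne hb))⟩
  intro q L s m b hq hb t₀ t₁ a1 a2 a3 hK
  by_contra hcon
  push Not at hcon
  simp only at hK hcon
  have hk : bookK ρ σ L s (q.1 / D) m b = (book_thm hρ hb).choose := by
    unfold bookK; rw [dif_pos ⟨hρ, hb⟩]
  obtain ⟨hK0, hbook⟩ := (book_thm hρ hb).choose_spec
  rw [← hk] at hK0 hbook
  have hT : 1 ≤ 2 * C * Real.exp (q.2 / D * t₁) := by
    have : 1 ≤ Real.exp (q.2 / D * t₁) := Real.one_le_exp (by positivity)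
    nlinarith
  have hsub : Z t₁ ⊆ X := hZ ▸ (hc _ _ a3 le_rfl).1
  have hne : (Z t₀).Nonempty := by
    rw [← card_pos]
    by_contra x
    have : (Z t₀).card = 0 := by omega
    rw [this] at hK
    have : 0 < bookK ρ σ L s (q.1 / D) m b * (2 * C) ^ s
      * Real.exp (s * (q.1 / D) * k + s * (q.2 / D) * t₁ + m * t₀) := by positivity
    simp at hK
    linarith
  have := hbook V S k t₀ (Z t₀) (Z t₁) (2 * C * Real.exp (q.2 / D * t₁)) (S.B t₁ (Z t₁))
    (hc _ _ a1 a3).1 hT ?_ ?_ ?_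
  · rcases this with h | h | h
    · exact hno (Or.inl (S.A_mono hsub h))
    · exact hno (Or.inr (hZ ▸ (hc _ _ (a1.trans a3) le_rfl).2 hne h))
    · exact hno (Or.inr (hZ ▸ (hc _ _ a3 le_rfl).2 (hne.mono (hc _ _ a1 a3).1) h))
  · intro k' hk' Y hY h
    rcases H q hq k' hk' t₁ a3 Y (hY.trans hsub) (by rw [Real.exp_add]; linarith) with h | h
    · exact Or.inl h
    · exact Or.inr (S.B_mono hY h)
  · intro u hu j
    have : ((S.pt (Sum.inr j) u (Z t₁)).card : ℝ) ≤ (Z (t₁ - 1)).card := by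
      exact_mod_cast hd t₁ a2 a3 u ((hc _ _ a1 a3).1 hu) j
    linarith
  · refine le_trans (le_of_eq ?_) hK
    have e : Real.exp (s * (q.1 / D) * k + s * (q.2 / D) * t₁ + m * t₀)
        = Real.exp (q.2 / D * t₁ * s) * Real.exp (s * (q.1 / D) * k + m * t₀) := by
      rw [← Real.exp_add]; congr 1; ring
    rw [Real.mul_rpow (x := 2 * C) (by positivity) (by positivity), ← Real.exp_mul, e]
    ring

/-- All ratios up to `top / D` are handled. -/
def Covered (ρ σ : ℕ) (Q : ℕ × ℕ → Prop) (top : ℕ) : Prop :=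
  ∀ᶠ C : ℝ in atTop, ∀ k l : ℕ, 0 < l → D * l ≤ top * k → ∃ a b : ℕ, Q (a, b) ∧
    (∀ q, Q q → a * k + b * l ≤ q.1 * k + q.2 * l) ∧
    ∀ n : ℕ → ℝ, Seq ρ σ (bookK ρ σ) Q C k l n → C * Real.exp (a / D * k + b / D * l) ≤ n l →
      Real.exp (-((b : ℝ) / D)) * n l ≤ n (l - 1)

lemma covered_zero (ρ σ : ℕ) (Q : ℕ × ℕ → Prop) : Covered ρ σ Q 0 := by
  refine Eventually.of_forall fun C k l hl h => ?_
  have : 0 < D * l := Nat.mul_pos (by unfold D; norm_num) hl
  omega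

def domChk (g : ℕ → ℕ × ℕ) (lo hi a b : ℕ) : ℕ → Bool
  | 0 => true
  | i + 1 => Nat.ble (a * D + b * lo) ((g i).1 * D + (g i).2 * lo) &&
      Nat.ble (a * D + b * hi) ((g i).1 * D + (g i).2 * hi) && domChk g lo hi a b i

lemma domChk_sound {g : ℕ → ℕ × ℕ} {lo hi a b : ℕ} : ∀ n, domChk g lo hi a b n = true →
    ∀ i < n, a * D + b * lo ≤ (g i).1 * D + (g i).2 * lo ∧
      a * D + b * hi ≤ (g i).1 * D + (g i).2 * hi
  | 0, _, i, hi => absurd hi (Nat.not_lt_zero _)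
  | n + 1, h, i, hi' => by
    simp only [domChk, Bool.and_eq_true, Nat.ble_eq] at h
    rcases Nat.lt_succ_iff_lt_or_eq.1 hi' with h' | rfl
    · exact domChk_sound n h.2 i h'
    · exact h.1

def fullCell (ρ σ : ℕ) (g : ℕ → ℕ × ℕ) (nQ lo hi j : ℕ) (τs : List ℕ) (pss : List (List Upd))
    (p : Upd) : Bool :=
  Nat.blt j nQ && domChk g lo hi (g j).1 (g j).2 nQ &&
    cellChk ρ σ g nQ lo hi (g j).1 (g j).2 τs pss p

lemma Covered.step {g : ℕ → ℕ × ℕ} {nQ lo hi j : ℕ} {τs : List ℕ} {pss : List (List Upd)}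
    {p : Upd} (h0 : Covered ρ σ (Listed g nQ) lo)
    (h : fullCell ρ σ g nQ lo hi j τs pss p = true) : Covered ρ σ (Listed g nQ) hi := by
  simp only [fullCell, Bool.and_eq_true, Nat.blt_eq] at h
  obtain ⟨⟨hj, hd⟩, hc⟩ := h
  filter_upwards [h0, cellChk_sound (K := bookK ρ σ) hc] with C h1 h2
  intro k l hl hk
  by_cases hlo : D * l ≤ lo * k
  · exact h1 k l hl hlo
  push Not at hlo
  have r1 : (lo : ℝ) * k < D * l := by exact_mod_cast hlo
  have r2 : (D : ℝ) * l ≤ hi * k := by exact_mod_cast hk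
  refine ⟨(g j).1, (g j).2, ⟨j, hj, rfl⟩, ?_, fun n hn ha => h2 k l n r1 r2 hn ha⟩
  rintro q ⟨i, hi', rfl⟩
  obtain ⟨d1, d2⟩ := domChk_sound nQ hd i hi'
  have e1 : ((g j).1 : ℝ) * D + (g j).2 * lo ≤ (g i).1 * D + (g i).2 * lo := by exact_mod_cast d1
  have e2 : ((g j).1 : ℝ) * D + (g j).2 * hi ≤ (g i).1 * D + (g i).2 * hi := by exact_mod_cast d2
  have hk0 : (0 : ℝ) ≤ k := Nat.cast_nonneg _
  have f1 := mul_le_mul_of_nonneg_right e1 hk0
  have f2 := mul_le_mul_of_nonneg_right e2 hk0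
  have := affine_le (α := ((g j).1 : ℝ) * D * k - (g i).1 * D * k) (β := (g j).2 - (g i).2)
    (lo := lo * k) (hi := hi * k) (x := D * l) (c := 0) (by linarith) (by linarith) r1.le r2
  have f3 : (D : ℝ) * ((g j).1 * k + (g j).2 * l) ≤ D * ((g i).1 * k + (g i).2 * l) := by linarith
  exact_mod_cast le_of_mul_le_mul_left f3 D_pos

lemma Sys.side_step (S : Sys V ρ σ) (hρ : 0 < ρ) {Q : ℕ × ℕ → Prop} {C : ℝ} (hC : 1 ≤ C)
    {k l a b : ℕ} (hl : 1 ≤ l) (hab : Q (a, b))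
    (hmin : ∀ q, Q q → a * k + b * l ≤ q.1 * k + q.2 * l)
    (hnum : ∀ n : ℕ → ℝ, Seq ρ σ (bookK ρ σ) Q C k l n →
      C * Real.exp (a / D * k + b / D * l) ≤ n l → Real.exp (-((b : ℝ) / D)) * n l ≤ n (l - 1))
    (ih : ∀ k' l', k' + l' < k + l → ∀ q, Q q → ∀ Y : Finset V,
      C * Real.exp (q.1 / D * k' + q.2 / D * l') ≤ Y.card → S.A k' Y ∨ S.B l' Y) :
    ∀ q, Q q → ∀ X : Finset V, C * Real.exp (q.1 / D * k + q.2 / D * l) ≤ X.card →
      S.A k X ∨ S.B l X := by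
  have hD := D_pos
  have hmin' : ∀ q, Q q → C * Real.exp (a / D * k + b / D * l)
      ≤ C * Real.exp (q.1 / D * k + q.2 / D * l) := by
    intro q hq
    refine mul_le_mul_of_nonneg_left (Real.exp_le_exp.2 ?_) (by linarith)
    have e : (a : ℝ) * k + b * l ≤ q.1 * k + q.2 * l := by exact_mod_cast hmin q hq
    have := div_le_div_of_nonneg_right e hD.le
    calc (a : ℝ) / D * k + b / D * l = (a * k + b * l) / D := by ring
      _ ≤ (q.1 * k + q.2 * l) / D := this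
      _ = _ := by ring
  intro q hq X₀ hX₀
  set N := C * Real.exp (a / D * k + b / D * l) with hN
  have hN1 : 1 ≤ N := by
    have : 1 ≤ Real.exp ((a : ℝ) / D * k + b / D * l) := Real.one_le_exp (by positivity)
    nlinarith
  obtain ⟨X, hX, hcard⟩ := exists_subset_card_eq (s := X₀) (n := ⌈N⌉₊)
    (Nat.ceil_le.2 ((hmin' q hq).trans hX₀))
  by_contra hcon
  have hno : ¬ (S.A k X ∨ S.B l X) := fun h =>
    hcon (h.imp (S.A_mono hX) (S.B_mono hX))
  obtain ⟨n, X', hn, e1, e2, hsub, hB⟩ := S.exists_seq hρ (Q := Q) hC hl hno (by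
    intro q' hq' k' hk' t ht Y hY h
    have hE := Real.exp_pos ((q'.1 : ℝ) / D * k' + q'.2 / D * t)
    by_cases hlt : k' + t < k + l
    · exact ih k' t hlt q' hq' Y (by nlinarith)
    · exfalso
      obtain rfl : k' = k := by omega
      obtain rfl : t = l := by omega
      have a1 : (Y.card : ℝ) ≤ X.card := by exact_mod_cast card_le_card hY
      have a2 : (X.card : ℝ) < N + 1 := by rw [hcard]; exact Nat.ceil_lt_add_one (by linarith)
      have a3 := hmin' q' hq'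
      linarith)
  have h1 := hnum n hn (by rw [e1, hcard]; exact Nat.le_ceil _)
  have h2 : C * Real.exp (a / D * k + b / D * (l - 1 : ℕ)) ≤ X'.card := by
    rw [← e2]
    refine le_trans ?_ h1
    have a1 : N ≤ n l := by rw [e1, hcard]; exact Nat.le_ceil _
    refine le_trans (le_of_eq ?_) (mul_le_mul_of_nonneg_left a1 (Real.exp_pos _).le)
    rw [hN, mul_left_comm, ← Real.exp_add]
    congr 2
    push_cast [Nat.cast_sub hl]; ring
  have h3 : X'.Nonempty := by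
    rw [← card_pos]
    have : (0 : ℝ) < X'.card := lt_of_lt_of_le (by positivity) h2
    exact_mod_cast this
  rcases ih k (l - 1) (by omega) (a, b) hab X' h2 with h | h
  · exact hno (Or.inl (S.A_mono hsub h))
  · exact hB h3 h

theorem two_sided {ρ₁ σ₁ ρ₂ σ₂ top₁ top₂ : ℕ} (h₁ : 0 < ρ₁) (h₂ : 0 < ρ₂) {Q : ℕ × ℕ → Prop}
    (htop : D * D ≤ top₁ * top₂) (c₁ : Covered ρ₁ σ₁ Q top₁)
    (c₂ : Covered ρ₂ σ₂ (fun q => Q q.swap) top₂) :
    ∃ C : ℝ, 1 ≤ C ∧ ∀ (V : Type) (S₁ : Sys V ρ₁ σ₁) (S₂ : Sys V ρ₂ σ₂),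
      S₂.A = S₁.B → S₂.B = S₁.A → ∀ (k l : ℕ) (q : ℕ × ℕ), Q q → ∀ X : Finset V,
        C * Real.exp (q.1 / D * k + q.2 / D * l) ≤ X.card → S₁.A k X ∨ S₁.B l X := by
  obtain ⟨C, hC, g₁, g₂⟩ := ((eventually_ge_atTop (1 : ℝ)).and (c₁.and c₂)).exists
  refine ⟨C, hC, fun V S₁ S₂ eA eB => ?_⟩
  have main : ∀ N k l : ℕ, k + l = N → ∀ q : ℕ × ℕ, Q q → ∀ X : Finset V,
      C * Real.exp (q.1 / D * k + q.2 / D * l) ≤ X.card → S₁.A k X ∨ S₁.B l X := by
    intro N
    induction N using Nat.strong_induction_on with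
    | _ N ih =>
    intro k l hN
    rcases Nat.eq_zero_or_pos k with rfl | hk
    · exact fun _ _ _ _ => Or.inl (S₁.A_zero _)
    rcases Nat.eq_zero_or_pos l with rfl | hl
    · exact fun _ _ _ _ => Or.inr (S₁.B_zero _)
    by_cases hside : D * l ≤ top₁ * k
    · obtain ⟨a, b, hab, hmin, hnum⟩ := g₁ k l hl hside
      exact S₁.side_step h₁ hC hl hab hmin hnum
        fun k' l' h q hq Y hY => ih _ (hN ▸ h) k' l' rfl q hq Y hY
    · have hside' : D * k ≤ top₂ * l := by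
        push Not at hside
        have a1 : D * (D * k) ≤ D * (top₂ * l) := by
          calc D * (D * k) = D * D * k := by ring
            _ ≤ top₁ * top₂ * k := Nat.mul_le_mul_right _ htop
            _ = top₂ * (top₁ * k) := by ring
            _ ≤ top₂ * (D * l) := Nat.mul_le_mul_left _ hside.le
            _ = D * (top₂ * l) := by ring
        exact Nat.le_of_mul_le_mul_left a1 (by unfold D; norm_num)
      obtain ⟨a, b, hab, hmin, hnum⟩ := g₂ l k hk hside'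
      intro q hq X hX
      have := S₂.side_step h₂ (Q := fun q => Q q.swap) hC hk hab hmin hnum (by
        intro k' l' h q' hq' Y hY
        rw [eA, eB]
        refine (ih (l' + k') (by omega) l' k' rfl q'.swap hq' Y ?_).symm
        rw [add_comm]; exact hY) q.swap (by simpa using hq) X (by rw [add_comm]; exact hX)
      rw [eA, eB] at this
      exact this.symm
  exact fun k l => main _ k l rfl

end Pool.Agent.Work.MP_e10cd8_co
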